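import Pool.Agent.H235R3.PT.Mean

set_option autoImplicit false

namespace Pool.Agent.H235R3.PT

open Finset Filter Topology
open scoped RealInnerProductSpace

/-- convex combinations of the basis vectors of real points can be made arbitrarily small -/
def LineZero (φ : ℂ → ℝ) : Prop :=
  ∀ ε > 0, ∃ (ι : Type) (_ : Fintype ι) (p : ι → ℝ) (x : ι → ℝ),
    (∀ i, 0 ≤ p i) ∧ ∑ i, p i = 1 ∧ ∑ i, ∑ j, p i * p j * φ ((x i - x j : ℝ) : ℂ) < ε

/-- rotation operator -/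
noncomputable def rot (φ : ℂ → ℝ) (u : ℂ) : V φ →ₗ[ℝ] V φ := lift φ (fun x => u * x)

theorem rot_e (φ : ℂ → ℝ) (u x : ℂ) : rot φ u (e φ x) = e φ (u * x) := lift_e _ _ _

theorem norm_rot (φ : ℂ → ℝ) [h : Fact (PD φ)] (hr : ∀ u x : ℂ, ‖u‖ = 1 → φ (u * x) = φ x)
    (u : ℂ) (hu : ‖u‖ = 1) (v : V φ) : ‖rot φ u v‖ = ‖v‖ :=
  norm_lift φ _ (fun x y => by rw [← mul_sub, hr _ _ hu]) v

theorem tr_rot (φ : ℂ → ℝ) (u a : ℂ) (v : V φ) :
    tr φ (u * a) (rot φ u v) = rot φ u (tr φ a v) := by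
  unfold tr rot
  rw [lift_lift, lift_lift]
  congr 1
  congr 1
  ext x
  ring

theorem tr_tr (φ : ℂ → ℝ) (a b : ℂ) (v : V φ) : tr φ a (tr φ b v) = tr φ (a + b) v := by
  unfold tr
  rw [lift_lift]
  congr 2
  ext x
  ring

theorem tr_zero (φ : ℂ → ℝ) (v : V φ) : tr φ 0 v = v := by
  unfold tr lift
  simp only [add_zero]
  exact Finsupp.mapDomain_id

section cross

variable (φ : ℂ → ℝ) [h : Fact (PD φ)]

/-- two vectors almost invariant under two transversal lines are almost orthogonal -/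
theorem cross (hm : MeanZero φ) {ι : Type} [Fintype ι] (p : ι → ℝ) (x : ι → ℂ)
    (hp : ∀ i, 0 ≤ p i) (hp1 : ∑ i, p i = 1) (P Q : V φ) (hP : P = ∑ i, p i • e φ (x i))
    (u v : ℂ) (huv : ∀ z : ℂ, ∃ a b : ℝ, z = u * a + v * b) (δ D : ℝ) (hδ : 0 ≤ δ) (hD : 0 ≤ D)
    (hPD : ‖P‖ ≤ D) (hQD : ‖Q‖ ≤ D)
    (hPi : ∀ a : ℝ, ‖tr φ (u * a) P - P‖ ≤ δ) (hQi : ∀ a : ℝ, ‖tr φ (v * a) Q - Q‖ ≤ δ) :
    |⟪P, Q⟫| ≤ 2 * δ * D := by
  have h1 : ∀ z, |⟪P, Q⟫ - ⟪tr φ z P, Q⟫| ≤ 2 * δ * D := by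
    intro z
    obtain ⟨a, b, hz⟩ := huv z
    have h2 : ⟪tr φ z P, Q⟫ = ⟪tr φ (u * a) P, tr φ (v * ((-b : ℝ) : ℂ)) Q⟫ := by
      have h3 : tr φ z P = tr φ (v * b) (tr φ (u * a) P) := by
        rw [tr_tr, hz, add_comm]
      have h4 : Q = tr φ (v * b) (tr φ (v * ((-b : ℝ) : ℂ)) Q) := by
        rw [tr_tr]
        have : v * (b : ℂ) + v * ((-b : ℝ) : ℂ) = 0 := by push_cast; ring
        rw [this, tr_zero]
      conv_lhs => rw [h3, h4]
      rw [inner_tr]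
    rw [h2]
    have h5 : ⟪P, Q⟫ - ⟪tr φ (u * a) P, tr φ (v * ((-b : ℝ) : ℂ)) Q⟫
        = -⟪tr φ (u * a) P - P, Q⟫ - ⟪tr φ (u * a) P, tr φ (v * ((-b : ℝ) : ℂ)) Q - Q⟫ := by
      rw [inner_sub_left, inner_sub_right]; ring
    rw [h5]
    have h6 := abs_real_inner_le_norm (tr φ (u * a) P - P) Q
    have h7 := abs_real_inner_le_norm (tr φ (u * a) P) (tr φ (v * ((-b : ℝ) : ℂ)) Q - Q)
    rw [norm_tr] at h7
    have h8 : ‖tr φ (u * a) P - P‖ * ‖Q‖ ≤ δ * D := mul_le_mul (hPi a) hQD (norm_nonneg _) hδ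
    have h9 : ‖P‖ * ‖tr φ (v * ((-b : ℝ) : ℂ)) Q - Q‖ ≤ D * δ :=
      mul_le_mul hPD (hQi (-b)) (norm_nonneg _) hD
    calc |-⟪tr φ (u * a) P - P, Q⟫ - ⟪tr φ (u * a) P, tr φ (v * ((-b : ℝ) : ℂ)) Q - Q⟫|
        ≤ |-⟪tr φ (u * a) P - P, Q⟫| + |⟪tr φ (u * a) P, tr φ (v * ((-b : ℝ) : ℂ)) Q - Q⟫| :=
          abs_sub _ _
      _ ≤ _ := by rw [abs_neg]; linarith
  apply le_of_forall_pos_le_add
  intro ε hε
  obtain ⟨κ, hκ, q, z, hq, hq1, hlt⟩ := hm ((ε / (D + 1)) ^ 2) (by positivity)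
  rw [← norm_sum_sq] at hlt
  have h2 : ‖∑ k, q k • e φ (z k)‖ ≤ ε / (D + 1) := le_of_sq_le_sq hlt.le (by positivity)
  have h3 := conv_bound φ p x hp hp1 (Finset.univ : Finset κ) q z
  rw [← hP] at h3
  have h4 : ⟪P, Q⟫ = ∑ k, q k * (⟪P, Q⟫ - ⟪tr φ (z k) P, Q⟫) + ⟪∑ k, q k • tr φ (z k) P, Q⟫ := by
    rw [sum_inner]
    simp only [mul_sub, Finset.sum_sub_distrib, ← Finset.sum_mul, hq1, inner_smul_left]
    simp
  rw [h4]
  calc |∑ k, q k * (⟪P, Q⟫ - ⟪tr φ (z k) P, Q⟫) + ⟪∑ k, q k • tr φ (z k) P, Q⟫|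
      ≤ |∑ k, q k * (⟪P, Q⟫ - ⟪tr φ (z k) P, Q⟫)| + |⟪∑ k, q k • tr φ (z k) P, Q⟫| := abs_add_le _ _
    _ ≤ ∑ k, q k * (2 * δ * D) + (ε / (D + 1)) * D := by
        gcongr
        · refine (Finset.abs_sum_le_sum_abs _ _).trans (Finset.sum_le_sum fun k _ => ?_)
          rw [abs_mul, abs_of_nonneg (hq k)]
          exact mul_le_mul_of_nonneg_left (h1 _) (hq k)
        · refine (abs_real_inner_le_norm _ _).trans ?_
          exact mul_le_mul (h3.trans h2) hQD (norm_nonneg _) (by positivity)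
    _ ≤ 2 * δ * D + ε := by
        rw [← Finset.sum_mul, hq1, one_mul]
        have : ε / (D + 1) * D = ε * (D / (D + 1)) := by field_simp
        rw [this]
        have : D / (D + 1) ≤ 1 := by rw [div_le_one (by positivity)]; linarith
        nlinarith

end cross

/-- the directions used -/
noncomputable def dirn (k : ℕ) : ℂ := (1 + k * Complex.I) / ‖(1 + k * Complex.I : ℂ)‖

theorem dirn_ne (k : ℕ) : (1 + k * Complex.I : ℂ) ≠ 0 := by
  intro h
  have := congrArg Complex.re h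
  simp at this

theorem norm_dirn (k : ℕ) : ‖dirn k‖ = 1 := by
  unfold dirn
  rw [norm_div, Complex.norm_real, norm_norm, div_self]
  exact norm_ne_zero_iff.mpr (dirn_ne k)

theorem dirn_span (k l : ℕ) (hkl : k ≠ l) (z : ℂ) :
    ∃ a b : ℝ, z = dirn k * a + dirn l * b := by
  have hkl' : (l : ℝ) - k ≠ 0 := sub_ne_zero.mpr (by exact_mod_cast hkl.symm)
  set β := (z.im - k * z.re) / (l - k) with hβ
  set α := z.re - β with hα
  refine ⟨α * ‖(1 + k * Complex.I : ℂ)‖, β * ‖(1 + l * Complex.I : ℂ)‖, ?_⟩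
  have hk : ((‖(1 + k * Complex.I : ℂ)‖ : ℝ) : ℂ) ≠ 0 := by
    exact_mod_cast norm_ne_zero_iff.mpr (dirn_ne k)
  have hl : ((‖(1 + l * Complex.I : ℂ)‖ : ℝ) : ℂ) ≠ 0 := by
    exact_mod_cast norm_ne_zero_iff.mpr (dirn_ne l)
  have e1 : dirn k * ((α * ‖(1 + k * Complex.I : ℂ)‖ : ℝ) : ℂ) = α * (1 + k * Complex.I) := by
    unfold dirn; push_cast; field_simp
  have e2 : dirn l * ((β * ‖(1 + l * Complex.I : ℂ)‖ : ℝ) : ℂ) = β * (1 + l * Complex.I) := by
    unfold dirn; push_cast; field_simp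
  rw [e1, e2]
  have hb : β * (l - k) = z.im - k * z.re := by rw [hβ]; field_simp
  apply Complex.ext
  · simp [hα]
  · simp
    rw [hα]; linear_combination -hb

/-- For a rotation invariant function of mean zero, the mean along the real line is zero. -/
theorem lineZero (φ : ℂ → ℝ) (h : PD φ) (hr : ∀ u x : ℂ, ‖u‖ = 1 → φ (u * x) = φ x)
    (hm : MeanZero φ) : LineZero φ := by
  have hF : Fact (PD φ) := ⟨h⟩
  set H : Set (V φ) := convexHull ℝ (Set.range (fun r : ℝ => e φ (r : ℂ))) with hH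
  have hHc : Convex ℝ H := convex_convexHull _ _
  set S : Set ℝ := (fun v : V φ => ‖v‖ ^ 2) '' H with hS
  have hSne : S.Nonempty := ⟨_, e φ ((0 : ℝ) : ℂ), subset_convexHull _ _ ⟨0, rfl⟩, rfl⟩
  have hSb : BddBelow S := ⟨0, by rintro _ ⟨v, _, rfl⟩; positivity⟩
  set c := sInf S with hc
  have hc0 : 0 ≤ c := le_csInf hSne (by rintro _ ⟨v, _, rfl⟩; positivity)
  have hcle : ∀ v ∈ H, c ≤ ‖v‖ ^ 2 := fun v hv => csInf_le hSb ⟨v, hv, rfl⟩
  have hrep : ∀ η > 0, ∃ (ι : Type) (_ : Fintype ι) (p : ι → ℝ) (x : ι → ℝ),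
      (∀ i, 0 ≤ p i) ∧ ∑ i, p i = 1 ∧ ‖∑ i, p i • e φ (x i : ℂ)‖ ^ 2 < c + η := by
    intro η hη
    obtain ⟨_, ⟨v, hv, rfl⟩, hlt⟩ := exists_lt_of_csInf_lt hSne (show sInf S < c + η by linarith)
    obtain ⟨ι, hι, p, z, hp, hp1, hz, rfl⟩ := mem_convexHull_iff_exists_fintype.mp hv
    choose x hx using hz
    refine ⟨ι, hι, p, x, hp, hp1, ?_⟩
    simpa [hx] using hlt
  suffices hc' : c = 0 by
    intro ε hε
    obtain ⟨ι, hι, p, x, hp, hp1, hlt⟩ := hrep ε hε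
    refine ⟨ι, hι, p, x, hp, hp1, ?_⟩
    rw [norm_sum_sq, hc', zero_add] at hlt
    simpa using hlt
  by_contra hne
  have hcpos : 0 < c := lt_of_le_of_ne hc0 (Ne.symm hne)
  set N := φ 0 with hN
  have hN0 : 0 ≤ N := h.zero_nonneg
  set D0 := Real.sqrt N with hD0
  have hD00 : 0 ≤ D0 := Real.sqrt_nonneg _
  set D := Real.sqrt (c + 1) with hD
  have hDpos : 0 ≤ D := Real.sqrt_nonneg _
  obtain ⟨K, hK⟩ := exists_nat_gt (N / c)
  rw [div_lt_iff₀ hcpos] at hK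
  have hKpos : (0 : ℝ) < K := by
    by_contra hh
    have : (K : ℝ) ≤ 0 := not_lt.mp hh
    nlinarith
  -- main estimate
  have main : ∀ δ : ℝ, 0 < δ → δ ≤ 1 → 2 * δ * D0 ≤ c →
      (K * (c - 2 * δ * D0)) ^ 2 ≤ (K * (c + δ ^ 2) + K * K * (2 * (2 * δ) * D)) * N := by
    intro δ hδ hδ1 hsmall
    obtain ⟨ι, hι, p, x, hp, hp1, hlt⟩ := hrep (δ ^ 2) (by positivity)
    set v : V φ := ∑ i, p i • e φ (x i : ℂ) with hv
    have hvH : v ∈ H := hHc.sum_mem (fun i _ => hp i) hp1 (fun i _ => subset_convexHull _ _ ⟨_, rfl⟩)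
    have hvD : ‖v‖ ≤ D := by
      apply Real.le_sqrt_of_sq_le
      have : δ ^ 2 ≤ 1 := by nlinarith
      linarith
    have htr : ∀ a : ℝ, ‖tr φ (a : ℂ) v - v‖ ≤ 2 * δ := by
      intro a
      have h1 : tr φ (a : ℂ) v ∈ H := by
        have : tr φ (a : ℂ) v = ∑ i, p i • e φ ((x i + a : ℝ) : ℂ) := by
          simp [hv, map_sum, map_smul, tr_e]
        rw [this]
        exact hHc.sum_mem (fun i _ => hp i) hp1 (fun i _ => subset_convexHull _ _ ⟨_, rfl⟩)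
      have h2 := near H hHc c (δ ^ 2) hcle _ _ h1 hvH (by rw [norm_tr]; exact hlt.le) hlt.le
      have h3 : ‖tr φ (a : ℂ) v - v‖ ^ 2 ≤ (2 * δ) ^ 2 := by nlinarith
      exact le_of_sq_le_sq h3 (by positivity)
    -- rotated copies
    let P : ℕ → V φ := fun k => rot φ (dirn k) v
    have hPn : ∀ k, ‖P k‖ = ‖v‖ := fun k => norm_rot φ hr _ (norm_dirn k) v
    have hPi : ∀ k (a : ℝ), ‖tr φ (dirn k * a) (P k) - P k‖ ≤ 2 * δ := by
      intro k a
      have : tr φ (dirn k * a) (P k) - P k = rot φ (dirn k) (tr φ (a : ℂ) v - v) := by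
        simp only [P]
        rw [tr_rot, map_sub]
      rw [this, norm_rot φ hr _ (norm_dirn k)]
      exact htr a
    have hPe : ∀ k, P k = ∑ i, p i • e φ (dirn k * (x i : ℂ)) := by
      intro k
      simp [P, hv, map_sum, map_smul, rot_e]
    have hcross : ∀ k l, k ≠ l → |⟪P k, P l⟫| ≤ 2 * (2 * δ) * D := by
      intro k l hkl
      exact cross φ hm p _ hp hp1 (P k) (P l) (hPe k) (dirn k) (dirn l) (dirn_span k l hkl)
        (2 * δ) D (by positivity) hDpos (by rw [hPn]; exact hvD) (by rw [hPn]; exact hvD)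
        (hPi k) (hPi l)
    have hdiag : ∀ k, ⟪P k, P k⟫ ≤ c + δ ^ 2 := by
      intro k
      rw [real_inner_self_eq_norm_sq, hPn]; exact hlt.le
    have he0 : ∀ k, c - 2 * δ * D0 ≤ ⟪P k, e φ 0⟫ := by
      intro k
      have h1 : ∀ i, |⟪P k, e φ 0⟫ - ⟪P k, e φ (dirn k * (x i : ℂ))⟫| ≤ 2 * δ * D0 := by
        intro i
        have h2 : ⟪P k, e φ 0⟫ = ⟪tr φ (dirn k * (x i : ℂ)) (P k), e φ (dirn k * (x i : ℂ))⟫ := by
          rw [← inner_tr φ (dirn k * (x i : ℂ)) (P k) (e φ 0), tr_e, zero_add]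
        rw [h2, ← inner_sub_left]
        refine (abs_real_inner_le_norm _ _).trans ?_
        rw [norm_e]
        exact mul_le_mul_of_nonneg_right (hPi k (x i)) hD00
      have h3 : ∑ i, p i * ⟪P k, e φ (dirn k * (x i : ℂ))⟫ = ‖v‖ ^ 2 := by
        rw [← hPn k, ← real_inner_self_eq_norm_sq]
        nth_rewrite 3 [hPe k]
        rw [inner_sum]
        refine Finset.sum_congr rfl fun i _ => ?_
        rw [inner_smul_right]
      have h4 : ⟪P k, e φ 0⟫ = ∑ i, p i * (⟪P k, e φ 0⟫ - ⟪P k, e φ (dirn k * (x i : ℂ))⟫)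
          + ‖v‖ ^ 2 := by
        rw [← h3]
        simp only [mul_sub, Finset.sum_sub_distrib, ← Finset.sum_mul, hp1]
        ring
      have h5 : |∑ i, p i * (⟪P k, e φ 0⟫ - ⟪P k, e φ (dirn k * (x i : ℂ))⟫)| ≤ 2 * δ * D0 := by
        refine (Finset.abs_sum_le_sum_abs _ _).trans ?_
        calc ∑ i, |p i * (⟪P k, e φ 0⟫ - ⟪P k, e φ (dirn k * (x i : ℂ))⟫)|
            ≤ ∑ i, p i * (2 * δ * D0) := by
              refine Finset.sum_le_sum fun i _ => ?_
              rw [abs_mul, abs_of_nonneg (hp i)]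
              exact mul_le_mul_of_nonneg_left (h1 i) (hp i)
          _ = 2 * δ * D0 := by rw [← Finset.sum_mul, hp1, one_mul]
      have h6 := hcle v hvH
      have h7 := (abs_le.mp h5).1
      linarith
    set w : V φ := ∑ k ∈ range K, P k with hw
    have hwn : ‖w‖ ^ 2 ≤ K * (c + δ ^ 2) + K * K * (2 * (2 * δ) * D) := by
      rw [← real_inner_self_eq_norm_sq, hw, sum_inner]
      calc ∑ k ∈ range K, ⟪P k, ∑ l ∈ range K, P l⟫
          ≤ ∑ k ∈ range K, ((c + δ ^ 2) + K * (2 * (2 * δ) * D)) := by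
            refine Finset.sum_le_sum fun k hk => ?_
            rw [inner_sum]
            calc ∑ l ∈ range K, ⟪P k, P l⟫
                ≤ ∑ l ∈ range K, ((if l = k then (c + δ ^ 2) else 0) + 2 * (2 * δ) * D) := by
                  refine Finset.sum_le_sum fun l _ => ?_
                  split_ifs with hlk
                  · rw [hlk]
                    have := hdiag k
                    have : 0 ≤ 2 * (2 * δ) * D := by positivity
                    linarith [hdiag k]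
                  · rw [zero_add]
                    exact (le_abs_self _).trans (hcross k l (Ne.symm hlk))
              _ = (c + δ ^ 2) + K * (2 * (2 * δ) * D) := by
                  rw [Finset.sum_add_distrib, Finset.sum_ite_eq', if_pos hk]
                  simp
        _ = _ := by simp; ring
    have hwe : K * (c - 2 * δ * D0) ≤ ⟪w, e φ 0⟫ := by
      rw [hw, sum_inner]
      calc K * (c - 2 * δ * D0) = ∑ k ∈ range K, (c - 2 * δ * D0) := by
            rw [Finset.sum_const, Finset.card_range, nsmul_eq_mul]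
        _ ≤ _ := Finset.sum_le_sum fun k _ => he0 k
    have hcs := real_inner_le_norm w (e φ 0)
    have h1 : 0 ≤ K * (c - 2 * δ * D0) := by
      apply mul_nonneg hKpos.le; linarith
    calc (K * (c - 2 * δ * D0)) ^ 2 ≤ (‖w‖ * ‖e φ 0‖) ^ 2 :=
          pow_le_pow_left₀ h1 (hwe.trans hcs) 2
      _ = ‖w‖ ^ 2 * N := by rw [mul_pow, norm_e_sq]
      _ ≤ _ := mul_le_mul_of_nonneg_right hwn hN0
  -- conclude
  have hlim : (K * c) ^ 2 ≤ K * c * N := by
    have t1 : Tendsto (fun δ : ℝ => (K * (c - 2 * δ * D0)) ^ 2) (𝓝[>] 0) (𝓝 ((K * c) ^ 2)) := by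
      have : Continuous (fun δ : ℝ => (K * (c - 2 * δ * D0)) ^ 2) := by fun_prop
      have h2 := this.tendsto 0
      simp only [mul_zero, zero_mul, sub_zero] at h2
      exact h2.mono_left nhdsWithin_le_nhds
    have t2 : Tendsto (fun δ : ℝ => (K * (c + δ ^ 2) + K * K * (2 * (2 * δ) * D)) * N) (𝓝[>] 0)
        (𝓝 (K * c * N)) := by
      have : Continuous (fun δ : ℝ => (K * (c + δ ^ 2) + K * K * (2 * (2 * δ) * D)) * N) := by
        fun_prop
      have h2 := this.tendsto 0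
      simp only [mul_zero, zero_mul, add_zero, ne_eq, OfNat.ofNat_ne_zero, not_false_eq_true,
        zero_pow] at h2
      exact h2.mono_left nhdsWithin_le_nhds
    refine le_of_tendsto_of_tendsto t1 t2 ?_
    have ev1 : ∀ᶠ δ : ℝ in 𝓝[>] 0, 0 < δ := self_mem_nhdsWithin
    have ev2 : ∀ᶠ δ : ℝ in 𝓝[>] 0, δ ≤ 1 :=
      nhdsWithin_le_nhds (Iic_mem_nhds (by norm_num))
    have ev3 : ∀ᶠ δ : ℝ in 𝓝[>] 0, 2 * δ * D0 ≤ c := by
      have : Continuous (fun δ : ℝ => 2 * δ * D0) := by fun_prop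
      have h2 := this.tendsto 0
      simp only [mul_zero, zero_mul] at h2
      have h3 := h2.eventually (Iic_mem_nhds hcpos)
      exact nhdsWithin_le_nhds h3
    filter_upwards [ev1, ev2, ev3] with δ a b c
    exact main δ a b c
  have h1 : K * c * (K * c) ≤ K * c * N := by rw [← sq]; exact hlim
  have h2 : K * c ≤ N := le_of_mul_le_mul_left h1 (by positivity)
  linarith

end Pool.Agent.H235R3.PT
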