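import Pool.Agent.H235R3.PT.MK
import Pool.Agent.H235R3.PT.Line

set_option autoImplicit false

namespace Pool.Agent.H235R3.PT

open Finset Filter Topology

/-- quadratic inequality for the kernel of a partition into `k` classes -/
def Quad (k : ℕ) (K : ℂ × ℂ → ℝ) : Prop :=
  ∀ (s : Finset ℂ) (u : ℂ → ℝ),
    (∑ x ∈ s, u x) ^ 2 ≤ k * ∑ x ∈ s, ∑ y ∈ s, u x * u y * K (x, y)

theorem quad_colour {k : ℕ} (c : ℂ → Fin k) :
    Quad k (fun p => if c p.1 = c p.2 then 1 else 0) := by
  classical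
  intro s u
  have h1 : ∑ x ∈ s, ∑ y ∈ s, u x * u y * (if c x = c y then (1 : ℝ) else 0)
      = ∑ i : Fin k, (∑ x ∈ s, if c x = i then u x else 0) ^ 2 := by
    simp only [sq, Finset.sum_mul_sum]
    rw [Finset.sum_comm' (t' := s) (s' := fun _ => (Finset.univ : Finset (Fin k))) (by simp)]
    refine Finset.sum_congr rfl fun x _ => ?_
    rw [Finset.sum_comm]
    refine Finset.sum_congr rfl fun y _ => ?_
    by_cases hxy : c x = c y
    · simp [hxy]
    · have : ∀ i : Fin k, (if c x = i then u x else 0) * (if c y = i then u y else 0) = 0 := by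
        intro i
        by_cases h : c x = i
        · have : c y ≠ i := fun h' => hxy (h.trans h'.symm)
          simp [this]
        · simp [h]
      simp [hxy, this]
  have h2 : ∑ x ∈ s, u x = ∑ i : Fin k, ∑ x ∈ s, (if c x = i then u x else 0) := by
    rw [Finset.sum_comm]
    refine Finset.sum_congr rfl fun x _ => ?_
    simp
  simp only
  rw [h1, h2]
  have h3 := sq_sum_le_card_mul_sum_sq (s := (Finset.univ : Finset (Fin k)))
    (f := fun i => ∑ x ∈ s, (if c x = i then u x else 0))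
  simpa using h3

/-- the kernels considered -/
def KerSet (k : ℕ) : Set (ℂ × ℂ → ℝ) :=
  {K | (∀ p, |K p| ≤ 1) ∧ (∀ x y, K (x, y) = K (y, x)) ∧ Quad k K ∧
    ∀ x y, ∀ n : ℕ, ‖x - y‖ = 2 ^ n → K (x, y) = 0}

theorem continuous_ev {X : Type*} (x : X) : Continuous (fun f : X → ℝ => f x) := continuous_apply x

theorem kerSet_closed (k : ℕ) : IsClosed (KerSet k) := by
  have e1 : IsClosed {K : ℂ × ℂ → ℝ | ∀ p, |K p| ≤ 1} := by
    simp only [Set.ofPred_forall]
    exact isClosed_iInter fun p => isClosed_le (continuous_ev p).abs continuous_const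
  have e2 : IsClosed {K : ℂ × ℂ → ℝ | ∀ x y, K (x, y) = K (y, x)} := by
    simp only [Set.ofPred_forall]
    exact isClosed_iInter fun x => isClosed_iInter fun y =>
      isClosed_eq (continuous_ev _) (continuous_ev _)
  have e3 : IsClosed {K : ℂ × ℂ → ℝ | Quad k K} := by
    unfold Quad
    simp only [Set.ofPred_forall]
    refine isClosed_iInter fun s => isClosed_iInter fun u => isClosed_le continuous_const ?_
    refine continuous_const.mul (continuous_finsetSum _ fun x _ => continuous_finsetSum _ fun y _ => ?_)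
    exact continuous_const.mul (continuous_ev _)
  have e4 : IsClosed {K : ℂ × ℂ → ℝ | ∀ x y, ∀ n : ℕ, ‖x - y‖ = 2 ^ n → K (x, y) = 0} := by
    simp only [Set.ofPred_forall]
    exact isClosed_iInter fun x => isClosed_iInter fun y => isClosed_iInter fun n =>
      isClosed_iInter fun _ => isClosed_eq (continuous_ev _) continuous_const
  exact e1.inter (e2.inter (e3.inter e4))

theorem kerSet_convex (k : ℕ) : Convex ℝ (KerSet k) := by
  intro K hK L hL a b ha hb hab
  refine ⟨fun p => ?_, fun x y => ?_, fun s u => ?_, fun x y n h => ?_⟩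
  · simp only [Pi.add_apply, Pi.smul_apply, smul_eq_mul]
    calc |a * K p + b * L p| ≤ |a * K p| + |b * L p| := abs_add_le _ _
      _ = a * |K p| + b * |L p| := by rw [abs_mul, abs_mul, abs_of_nonneg ha, abs_of_nonneg hb]
      _ ≤ a * 1 + b * 1 := by gcongr; exact hK.1 p; exact hL.1 p
      _ = 1 := by linarith
  · simp only [Pi.add_apply, Pi.smul_apply, smul_eq_mul]
    rw [hK.2.1 x y, hL.2.1 x y]
  · have h1 := hK.2.2.1 s u
    have h2 := hL.2.2.1 s u
    have h3 : ∑ x ∈ s, ∑ y ∈ s, u x * u y * (a • K + b • L) (x, y)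
        = a * (∑ x ∈ s, ∑ y ∈ s, u x * u y * K (x, y)) + b * (∑ x ∈ s, ∑ y ∈ s, u x * u y * L (x, y)) := by
      simp only [Pi.add_apply, Pi.smul_apply, smul_eq_mul, Finset.mul_sum, ← Finset.sum_add_distrib]
      refine Finset.sum_congr rfl fun x _ => Finset.sum_congr rfl fun y _ => ?_
      ring
    rw [h3]
    have h4 := mul_le_mul_of_nonneg_left h1 ha
    have h5 := mul_le_mul_of_nonneg_left h2 hb
    have h6 : (∑ x ∈ s, u x) ^ 2 = a * (∑ x ∈ s, u x) ^ 2 + b * (∑ x ∈ s, u x) ^ 2 := by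
      rw [← add_mul, hab, one_mul]
    rw [h6]
    nlinarith
  · simp only [Pi.add_apply, Pi.smul_apply, smul_eq_mul]
    rw [hK.2.2.2 x y n h, hL.2.2.2 x y n h]
    ring

theorem kerSet_comp (k : ℕ) (g : ℂ → ℂ) (hinj : Function.Injective g)
    (hg : ∀ x y, ∀ n : ℕ, ‖x - y‖ = 2 ^ n → ∃ m : ℕ, ‖g x - g y‖ = 2 ^ m)
    (K : ℂ × ℂ → ℝ) (hK : K ∈ KerSet k) : (fun p : ℂ × ℂ => K (g p.1, g p.2)) ∈ KerSet k := by
  classical
  refine ⟨fun p => hK.1 _, fun x y => hK.2.1 _ _, fun s u => ?_, fun x y n h => ?_⟩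
  · have h1 := hK.2.2.1 (s.image g) (fun z => u (Function.invFun g z))
    have hinv : ∀ x, Function.invFun g (g x) = x := Function.leftInverse_invFun hinj
    rw [Finset.sum_image (fun x _ y _ h => hinj h), Finset.sum_image (fun x _ y _ h => hinj h)] at h1
    simp only [Finset.sum_image (fun x _ y _ h => hinj h), hinv] at h1
    exact h1
  · obtain ⟨m, hm⟩ := hg x y n h
    exact hK.2.2.2 _ _ m hm

/-- From a colouring to an invariant positive definite function. -/
theorem exists_phi {k : ℕ} (c : ℂ → Fin k)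
    (hc : ∀ x y, ∀ n : ℕ, ‖x - y‖ = 2 ^ n → c x ≠ c y) :
    ∃ φ : ℂ → ℝ, PD φ ∧ MeanZero φ ∧ φ 1 < 0 ∧
      ∀ a x : ℂ, ∀ n : ℕ, ‖a‖ = 2 ^ n → φ (a * x) = φ x := by
  classical
  have hk : 0 < k := lt_of_le_of_lt (Nat.zero_le _) (c 0).2
  have hk' : (0 : ℝ) < k := by exact_mod_cast hk
  -- translations
  let σ : ℂ → ℂ × ℂ → ℂ × ℂ := fun a p => (p.1 + a, p.2 + a)
  have hne : (KerSet k).Nonempty := by
    refine ⟨fun p => if c p.1 = c p.2 then 1 else 0, fun p => ?_, fun x y => ?_, quad_colour c,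
      fun x y n h => ?_⟩
    · dsimp only
      split_ifs <;> norm_num
    · dsimp only
      simp only [eq_comm]
    · dsimp only
      rw [if_neg (hc x y n h)]
  obtain ⟨K1, hK1, hK1i⟩ := exists_invariant σ (fun i j x => by simp [σ]; constructor <;> ring)
    (KerSet k) 1 hne (kerSet_closed k) (kerSet_convex k) (fun f hf x => hf.1 x)
    (fun a K hK => kerSet_comp k (fun x => x + a) (add_left_injective a)
      (fun x y n h => ⟨n, by simpa using h⟩) K hK)
  -- rotations and dilations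
  let K2 : Set (ℂ × ℂ → ℝ) := KerSet k ∩ {K | ∀ a p, K (σ a p) = K p}
  have hcl2 : IsClosed {K : ℂ × ℂ → ℝ | ∀ a p, K (σ a p) = K p} := by
    simp only [Set.ofPred_forall]
    exact isClosed_iInter fun x => isClosed_iInter fun y =>
      isClosed_eq (continuous_ev _) (continuous_ev _)
  have hcv2 : Convex ℝ {K : ℂ × ℂ → ℝ | ∀ a p, K (σ a p) = K p} := by
    intro K hK L hL a b _ _ _ z p
    simp only [Pi.add_apply, Pi.smul_apply, smul_eq_mul]
    rw [hK z p, hL z p]
  let J := {a : ℂ // ∃ n : ℕ, ‖a‖ = 2 ^ n}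
  have hJ0 : ∀ a : J, (a : ℂ) ≠ 0 := by
    rintro ⟨a, n, ha⟩ h0
    simp only at h0
    rw [h0, norm_zero] at ha
    have : (0 : ℝ) < 2 ^ n := by positivity
    linarith
  let τ : J → ℂ × ℂ → ℂ × ℂ := fun a p => (a * p.1, a * p.2)
  obtain ⟨K, hK, hKi⟩ := exists_invariant τ (fun i j x => by simp [τ]; constructor <;> ring)
    K2 1 ⟨K1, hK1, hK1i⟩ ((kerSet_closed k).inter hcl2) ((kerSet_convex k).inter hcv2)
    (fun f hf x => hf.1.1 x)
    (fun a L hL => by
      refine ⟨kerSet_comp k (fun x => a * x) (mul_right_injective₀ (hJ0 a)) ?_ L hL.1, ?_⟩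
      · intro x y n h
        obtain ⟨m, hm⟩ := a.2
        exact ⟨m + n, by rw [← mul_sub, norm_mul, hm, h, pow_add]⟩
      · intro z p
        have := hL.2 (a * z) (a * p.1, a * p.2)
        simp only [σ, τ] at this ⊢
        rw [mul_add, mul_add]
        exact this)
  obtain ⟨⟨hb, hs, hq, hedge⟩, htr⟩ := hK
  have hdiff : ∀ x y, K (x - y, 0) = K (x, y) := by
    intro x y
    have := htr (-y) (x, y)
    simp only [σ] at this
    rw [← this]
    congr 2
    ring
  let φ1 : ℂ → ℝ := fun x => K (x, 0) - 1 / k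
  have hPD1 : PD φ1 := by
    refine ⟨fun x => ?_, fun s u => ?_⟩
    · simp only [φ1]
      have h1 := hdiff 0 x
      rw [zero_sub] at h1
      rw [h1, hs]
    · have h1 := hq s u
      have h2 : ∑ x ∈ s, ∑ y ∈ s, u x * u y * φ1 (x - y)
          = ∑ x ∈ s, ∑ y ∈ s, u x * u y * K (x, y) - (∑ x ∈ s, u x) ^ 2 / k := by
        rw [sq, Finset.sum_mul_sum, Finset.sum_div, ← Finset.sum_sub_distrib]
        refine Finset.sum_congr rfl fun x _ => ?_
        rw [Finset.sum_div, ← Finset.sum_sub_distrib]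
        refine Finset.sum_congr rfl fun y _ => ?_
        simp only [φ1, hdiff]
        ring
      rw [h2]
      have h3 : (∑ x ∈ s, u x) ^ 2 / k ≤ ∑ x ∈ s, ∑ y ∈ s, u x * u y * K (x, y) := by
        rw [div_le_iff₀ hk']; linarith
      linarith
  obtain ⟨d, hd, hPD, hMZ⟩ := exists_meanZero φ1 hPD1
  refine ⟨_, hPD, hMZ, ?_, ?_⟩
  · have h1 : K (1, 0) = 0 := hedge 1 0 0 (by simp)
    simp only [φ1, h1]
    have : 0 < 1 / (k : ℝ) := by positivity
    linarith
  · intro a x n ha
    have := hKi ⟨a, n, ha⟩ (x, 0)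
    simp only [τ, mul_zero] at this
    simp only [φ1, this]

end Pool.Agent.H235R3.PT
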