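import Mathlib

set_option autoImplicit false

namespace Pool.Agent.H235R3.PT

open Finset Filter Topology Polynomial

theorem nonneg_left_of_mul (Q : ℝ[X]) (r : ℝ) (h : ∀ x, 0 ≤ (x - r) * Q.eval x) :
    0 ≤ Q.eval r := by
  have hc : Tendsto (fun x => Q.eval x) (𝓝[>] r) (𝓝 (Q.eval r)) :=
    (Q.continuous.tendsto r).mono_left nhdsWithin_le_nhds
  refine ge_of_tendsto hc ?_
  filter_upwards [self_mem_nhdsWithin] with x hx
  have h1 := h x
  have h2 : 0 < x - r := sub_pos.mpr hx
  by_contra hneg
  push Not at hneg
  nlinarith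

theorem nonpos_of_mul (Q : ℝ[X]) (r : ℝ) (h : ∀ x, 0 ≤ (x - r) * Q.eval x) :
    Q.eval r ≤ 0 := by
  have hc : Tendsto (fun x => Q.eval x) (𝓝[<] r) (𝓝 (Q.eval r)) :=
    (Q.continuous.tendsto r).mono_left nhdsWithin_le_nhds
  refine le_of_tendsto hc ?_
  filter_upwards [self_mem_nhdsWithin] with x hx
  have h1 := h x
  have h2 : x - r < 0 := sub_neg.mpr hx
  by_contra hneg
  push Not at hneg
  nlinarith

theorem nonneg_of_sq_mul (Q : ℝ[X]) (r : ℝ) (h : ∀ x, 0 ≤ (x - r) ^ 2 * Q.eval x) (x : ℝ) :
    0 ≤ Q.eval x := by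
  by_cases hx : x = r
  · subst hx
    have hc : Tendsto (fun y => Q.eval y) (𝓝[>] x) (𝓝 (Q.eval x)) :=
      (Q.continuous.tendsto x).mono_left nhdsWithin_le_nhds
    refine ge_of_tendsto hc ?_
    filter_upwards [self_mem_nhdsWithin] with y hy
    have h1 := h y
    have h2 : 0 < y - x := sub_pos.mpr hy
    have h3 : 0 < (y - x) ^ 2 := by positivity
    by_contra hneg
    push Not at hneg
    nlinarith
  · have h2 : x - r ≠ 0 := sub_ne_zero.mpr hx
    have h3 : 0 < (x - r) ^ 2 := by positivity
    have h1 := h x
    by_contra hneg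
    push Not at hneg
    nlinarith

/-- A nonnegative real polynomial is the squared modulus of a complex polynomial. -/
theorem sos : ∀ (d : ℕ) (R : ℝ[X]), R.natDegree = d → (∀ x, 0 ≤ R.eval x) →
    ∃ P : ℂ[X], ∀ x : ℝ, ‖P.eval (x : ℂ)‖ ^ 2 = R.eval x := by
  intro d
  induction d using Nat.strong_induction_on with
  | _ d ih =>
    intro R hd hR
    by_cases h0 : R.natDegree = 0
    · rw [natDegree_eq_zero] at h0
      obtain ⟨r, rfl⟩ := h0
      have hr : 0 ≤ r := by simpa using hR 0
      refine ⟨C ((Real.sqrt r : ℝ) : ℂ), fun x => ?_⟩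
      simp only [eval_C, Complex.norm_real, Real.norm_eq_abs, sq_abs]
      exact Real.sq_sqrt hr
    · have hR0 : R ≠ 0 := by rintro rfl; simp at h0
      have hdeg : R.degree ≠ 0 := by
        intro h
        exact h0 (natDegree_eq_of_degree_eq_some h)
      obtain ⟨z, hz⟩ := IsAlgClosed.exists_aeval_eq_zero ℂ R hdeg
      by_cases hzi : z.im = 0
      · set r := z.re with hr
        have hzr : z = (r : ℂ) := by
          apply Complex.ext <;> simp [hr, hzi]
        have hroot : R.IsRoot r := by
          rw [hzr] at hz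
          have h2 := Polynomial.aeval_algebraMap_apply ℂ r R
          have h1 : ((R.eval r : ℝ) : ℂ) = 0 := by
            rw [← hz, ← coe_aeval_eq_eval]
            exact h2.symm
          exact_mod_cast h1
        obtain ⟨Q, hQ⟩ := dvd_iff_isRoot.mpr hroot
        have hQ1 : ∀ x, 0 ≤ (x - r) * Q.eval x := by
          intro x
          have := hR x
          rw [hQ] at this
          simpa using this
        have hQroot : Q.IsRoot r := le_antisymm (nonpos_of_mul Q r hQ1) (nonneg_left_of_mul Q r hQ1)
        obtain ⟨S, hS⟩ := dvd_iff_isRoot.mpr hQroot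
        have hS1 : ∀ x, 0 ≤ (x - r) ^ 2 * S.eval x := by
          intro x
          have := hQ1 x
          rw [hS] at this
          simp at this
          calc 0 ≤ _ := this
            _ = _ := by ring
        have hS2 := nonneg_of_sq_mul S r hS1
        have hS0 : S ≠ 0 := by
          rintro rfl
          rw [mul_zero] at hS
          rw [hS, mul_zero] at hQ
          exact hR0 hQ
        have hlt : S.natDegree < d := by
          rw [← hd, hQ, hS, natDegree_mul (X_sub_C_ne_zero r) (mul_ne_zero (X_sub_C_ne_zero r) hS0),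
            natDegree_mul (X_sub_C_ne_zero r) hS0, natDegree_X_sub_C]
          omega
        obtain ⟨P, hP⟩ := ih _ hlt S rfl hS2
        refine ⟨(X - C (r : ℂ)) * P, fun x => ?_⟩
        rw [eval_mul, norm_mul, mul_pow, hP, hQ, hS]
        simp only [eval_sub, eval_X, eval_C, eval_mul]
        rw [← Complex.ofReal_sub, Complex.norm_real, Real.norm_eq_abs, sq_abs]
        ring
      · obtain ⟨Q, hQ⟩ := quadratic_dvd_of_aeval_eq_zero_im_ne_zero R hz hzi
        have hq : ∀ x : ℝ, (X ^ 2 - C (2 * z.re) * X + C (‖z‖ ^ 2) : ℝ[X]).eval x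
            = ‖(x : ℂ) - z‖ ^ 2 := by
          intro x
          simp only [eval_add, eval_sub, eval_pow, eval_X, eval_mul, eval_C]
          rw [← Complex.normSq_eq_norm_sq, ← Complex.normSq_eq_norm_sq, Complex.normSq_apply,
            Complex.normSq_apply]
          simp
          ring
        have hpos : ∀ x : ℝ, 0 < ‖(x : ℂ) - z‖ ^ 2 := by
          intro x
          have : (x : ℂ) - z ≠ 0 := by
            intro h
            have := congrArg Complex.im h
            simp at this
            exact hzi this
          have := norm_pos_iff.mpr this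
          positivity
        have hQ1 : ∀ x, 0 ≤ Q.eval x := by
          intro x
          have h1 := hR x
          rw [hQ, eval_mul, hq] at h1
          exact nonneg_of_mul_nonneg_right h1 (hpos x)
        have hQ0 : Q ≠ 0 := by
          rintro rfl
          rw [mul_zero] at hQ
          exact hR0 hQ
        have hquad : (X ^ 2 - C (2 * z.re) * X + C (‖z‖ ^ 2) : ℝ[X]).natDegree = 2 := by
          compute_degree!
        have hquad0 : (X ^ 2 - C (2 * z.re) * X + C (‖z‖ ^ 2) : ℝ[X]) ≠ 0 := by
          intro h
          rw [h] at hquad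
          simp at hquad
        have hlt : Q.natDegree < d := by
          rw [← hd, hQ, natDegree_mul hquad0 hQ0, hquad]
          omega
        obtain ⟨P, hP⟩ := ih _ hlt Q rfl hQ1
        refine ⟨(X - C z) * P, fun x => ?_⟩
        rw [eval_mul, norm_mul, mul_pow, hP, hQ, eval_mul, hq]
        simp

end Pool.Agent.H235R3.PT
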