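import Pool.Agent.H235R3.PT.Poly
import Pool.Agent.H235R3.PT.Sos

set_option autoImplicit false

namespace Pool.Agent.H235R3.PT

open Finset Filter Topology Polynomial

/-- contraction estimate for a real polynomial outside the unit interval -/
theorem contr (W : ℝ[X]) (m : ℕ) (hW : W.natDegree ≤ m) :
    ∃ C : ℝ, 0 ≤ C ∧ ∀ l : ℝ, 0 ≤ l → l ≤ 1 → ∀ x : ℝ, 1 ≤ |x| →
      |W.eval (l * x) - W.eval x| ≤ C * (1 - l) * |x| ^ m := by
  refine ⟨∑ k ∈ range (m + 1), |W.coeff k| * k, Finset.sum_nonneg fun k _ => by positivity, ?_⟩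
  intro l hl0 hl1 x hx
  have hdeg : W.natDegree < m + 1 := by omega
  rw [eval_eq_sum_range' hdeg, eval_eq_sum_range' hdeg, ← Finset.sum_sub_distrib, Finset.sum_mul,
    Finset.sum_mul]
  refine (Finset.abs_sum_le_sum_abs _ _).trans (Finset.sum_le_sum fun k hk => ?_)
  have hk' : k ≤ m := by have := Finset.mem_range.mp hk; omega
  have h1 : W.coeff k * (l * x) ^ k - W.coeff k * x ^ k = -(W.coeff k * ((1 - l ^ k) * x ^ k)) := by
    rw [mul_pow]; ring
  have h2 : 0 ≤ 1 - l ^ k := by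
    have := pow_le_one₀ (n := k) hl0 hl1
    linarith
  rw [h1, abs_neg, abs_mul, abs_mul, abs_of_nonneg h2, abs_pow]
  have h3 : 1 - l ^ k ≤ k * (1 - l) := by
    have := one_add_mul_le_pow (show (-2 : ℝ) ≤ l - 1 by linarith) k
    have h4 : (1 + (l - 1)) ^ k = l ^ k := by congr 1; ring
    rw [h4] at this
    linarith
  have h5 : |x| ^ k ≤ |x| ^ m := pow_le_pow_right₀ hx hk'
  calc |W.coeff k| * ((1 - l ^ k) * |x| ^ k) ≤ |W.coeff k| * ((k * (1 - l)) * |x| ^ m) := by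
        gcongr
    _ = |W.coeff k| * k * (1 - l) * |x| ^ m := by ring

/-- the cosine belonging to the sine `l` -/
noncomputable def lam (l : ℝ) : ℝ := Real.sqrt (1 - l ^ 2)

theorem lam_sq {l : ℝ} (h0 : 0 < l) (h1 : l < 1) : lam l ^ 2 = 1 - l ^ 2 := by
  unfold lam
  exact Real.sq_sqrt (by nlinarith)

theorem lam_pos {l : ℝ} (h0 : 0 < l) (h1 : l < 1) : 0 < lam l :=
  Real.sqrt_pos.mpr (by nlinarith)

theorem lam_le {l : ℝ} (h0 : 0 < l) (h1 : l < 1) : lam l ≤ 1 := by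
  have h2 := lam_sq h0 h1
  have h3 := lam_pos h0 h1
  nlinarith

theorem one_sub_lam {l : ℝ} (h0 : 0 < l) (h1 : l < 1) : 1 - lam l ≤ l ^ 2 := by
  have h2 := lam_sq h0 h1
  have h3 := lam_pos h0 h1
  have h4 := lam_le h0 h1
  nlinarith

/-- the pairwise differences after the change of scale are moduli of complex polynomials -/
theorem evenFam (W : ℝ[X]) (m : ℕ) (hW : W.natDegree ≤ m)
    (hlow : ∀ x : ℝ, 1 ≤ |x| → |x| ^ m ≤ |W.eval x|) (N : ℕ) (hN : 0 < N) :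
    ∃ l : ℕ → ℝ, (∀ i < N, 0 < l i ∧ l i < 1) ∧ ∀ i < N, ∀ j < N, i ≠ j →
      ∃ P : ℂ[X], 1 ≤ P.natDegree ∧ ∀ x : ℝ, ‖P.eval (x : ℂ)‖ ^ 2 =
        x ^ 2 * (l i * W.eval (lam (l i) * x) - l j * W.eval (lam (l j) * x)) ^ 2
          + (1 - x ^ 2) * (W.eval (lam (l i) * x) - W.eval (lam (l j) * x)) ^ 2 := by
  obtain ⟨C, hC0, hC⟩ := contr W m hW
  have hN' : (1 : ℝ) ≤ N := by exact_mod_cast hN
  set ε : ℝ := 1 / (8 * (C + 1) * N ^ 2) with hε
  have hε0 : 0 < ε := by positivity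
  have hεN : 8 * (C + 1) * (ε * N ^ 2) = 1 := by rw [hε]; field_simp
  have hεN2 : ε * N ≤ 1 / 8 := by
    have h1 : ε * N ≤ ε * N ^ 2 := mul_le_mul_of_nonneg_left (by nlinarith) hε0.le
    have h2 : 8 * (ε * N ^ 2) ≤ 8 * (C + 1) * (ε * N ^ 2) := by
      have : 0 ≤ C * (ε * N ^ 2) := by positivity
      nlinarith
    linarith
  let l : ℕ → ℝ := fun i => ε * (i + 1)
  have hl0 : ∀ i, 0 < l i := fun i => by simp only [l]; positivity
  have hlN : ∀ i < N, l i ≤ ε * N := by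
    intro i hi
    simp only [l]
    have : (i : ℝ) + 1 ≤ N := by exact_mod_cast hi
    exact mul_le_mul_of_nonneg_left this hε0.le
  have hl1 : ∀ i < N, l i < 1 := fun i hi => by linarith [hlN i hi]
  refine ⟨l, fun i hi => ⟨hl0 i, hl1 i hi⟩, fun i hi j hj hij => ?_⟩
  set A : ℝ[X] := Polynomial.C (l i) * W.comp (Polynomial.C (lam (l i)) * X)
    - Polynomial.C (l j) * W.comp (Polynomial.C (lam (l j)) * X) with hA
  set B : ℝ[X] := W.comp (Polynomial.C (lam (l i)) * X) - W.comp (Polynomial.C (lam (l j)) * X)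
    with hB
  have hAe : ∀ x, A.eval x = l i * W.eval (lam (l i) * x) - l j * W.eval (lam (l j) * x) := by
    intro x; simp [hA]
  have hBe : ∀ x, B.eval x = W.eval (lam (l i) * x) - W.eval (lam (l j) * x) := by
    intro x; simp [hB]
  have hsep : ε ≤ |l i - l j| := by
    simp only [l]
    rw [← mul_sub, abs_mul, abs_of_pos hε0]
    have h1 : (1 : ℝ) ≤ |((i : ℝ) + 1) - (j + 1)| := by
      have h2 : ((i : ℝ) + 1) - (j + 1) = (((i : ℤ) - j : ℤ) : ℝ) := by push_cast; ring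
      rw [h2, ← Int.cast_abs]
      have h3 : (1 : ℤ) ≤ |(i : ℤ) - j| := Int.one_le_abs (by omega)
      exact_mod_cast h3
    nlinarith
  have hAB : ∀ x, 1 ≤ |x| → |B.eval x| < |A.eval x| := by
    intro x hx
    have hxm : 0 < |x| ^ m := by positivity
    have hW' := hlow x hx
    have d : ∀ i < N, |W.eval (lam (l i) * x) - W.eval x| ≤ C * l i ^ 2 * |x| ^ m := by
      intro i hi
      refine (hC _ (lam_pos (hl0 i) (hl1 i hi)).le (lam_le (hl0 i) (hl1 i hi)) x hx).trans ?_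
      have := one_sub_lam (hl0 i) (hl1 i hi)
      gcongr
    have di := d i hi
    have dj := d j hj
    have hli2 : l i ^ 2 ≤ (ε * N) ^ 2 := pow_le_pow_left₀ (hl0 i).le (hlN i hi) 2
    have hlj2 : l j ^ 2 ≤ (ε * N) ^ 2 := pow_le_pow_left₀ (hl0 j).le (hlN j hj) 2
    set E := C * (ε * N) ^ 2 * |x| ^ m with hE
    have hE0 : 0 ≤ E := by positivity
    have di' : |W.eval (lam (l i) * x) - W.eval x| ≤ E := di.trans (by rw [hE]; gcongr)
    have dj' : |W.eval (lam (l j) * x) - W.eval x| ≤ E := dj.trans (by rw [hE]; gcongr)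
    have hBx : |B.eval x| ≤ 2 * E := by
      rw [hBe]
      calc |W.eval (lam (l i) * x) - W.eval (lam (l j) * x)|
          = |(W.eval (lam (l i) * x) - W.eval x) - (W.eval (lam (l j) * x) - W.eval x)| := by
            congr 1; ring
        _ ≤ _ := (abs_sub _ _).trans (by linarith)
    have hAx : ε * |x| ^ m - 2 * E ≤ |A.eval x| := by
      rw [hAe]
      have h1 : (l i - l j) * W.eval x = (l i * W.eval (lam (l i) * x) - l j * W.eval (lam (l j) * x))
          - l i * (W.eval (lam (l i) * x) - W.eval x) + l j * (W.eval (lam (l j) * x) - W.eval x) := by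
        ring
      have h2 : |(l i - l j) * W.eval x| ≤
          |l i * W.eval (lam (l i) * x) - l j * W.eval (lam (l j) * x)| + E + E := by
        rw [h1]
        refine (abs_add_le _ _).trans (add_le_add ((abs_sub _ _).trans (add_le_add le_rfl ?_)) ?_)
        · rw [abs_mul, abs_of_pos (hl0 i)]
          calc l i * |W.eval (lam (l i) * x) - W.eval x| ≤ 1 * E :=
                mul_le_mul (hl1 i hi).le di' (abs_nonneg _) zero_le_one
            _ = E := one_mul _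
        · rw [abs_mul, abs_of_pos (hl0 j)]
          calc l j * |W.eval (lam (l j) * x) - W.eval x| ≤ 1 * E :=
                mul_le_mul (hl1 j hj).le dj' (abs_nonneg _) zero_le_one
            _ = E := one_mul _
      have h3 : ε * |x| ^ m ≤ |(l i - l j) * W.eval x| := by
        rw [abs_mul]
        exact mul_le_mul hsep hW' hxm.le (abs_nonneg _)
      linarith
    have hfin : 4 * E < ε * |x| ^ m := by
      have h1 : 4 * E = (4 * C * (ε * N ^ 2)) * (ε * |x| ^ m) := by rw [hE]; ring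
      have h2 : 4 * C * (ε * N ^ 2) < 1 := by
        have : 0 < ε * (N : ℝ) ^ 2 := by positivity
        nlinarith
      rw [h1]
      have : 0 < ε * |x| ^ m := by positivity
      nlinarith
    linarith
  set R : ℝ[X] := X ^ 2 * A ^ 2 + (1 - X ^ 2) * B ^ 2 with hR
  have hRe : ∀ x, R.eval x = x ^ 2 * (A.eval x) ^ 2 + (1 - x ^ 2) * (B.eval x) ^ 2 := by
    intro x; simp [hR]
  have hRnn : ∀ x, 0 ≤ R.eval x := by
    intro x
    rw [hRe]
    rcases le_total |x| 1 with hx | hx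
    · have h1 : x ^ 2 ≤ 1 := by rw [← sq_abs]; exact pow_le_one₀ (abs_nonneg _) hx
      have h2 : 0 ≤ 1 - x ^ 2 := by linarith
      positivity
    · have h1 := hAB x hx
      have h2 : (B.eval x) ^ 2 ≤ (A.eval x) ^ 2 := sq_le_sq.mpr h1.le
      have h3 : 0 ≤ x ^ 2 := sq_nonneg x
      have h4 : 0 ≤ (B.eval x) ^ 2 := sq_nonneg _
      nlinarith [mul_le_mul_of_nonneg_left h2 h3]
  obtain ⟨P, hP⟩ := sos _ R rfl hRnn
  refine ⟨P, ?_, fun x => ?_⟩
  · by_contra hlt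
    have h0 : P.natDegree = 0 := by omega
    rw [natDegree_eq_zero] at h0
    obtain ⟨p, rfl⟩ := h0
    have e0 := hP 0
    have e1 := hP 1
    rw [hRe] at e0 e1
    have hB0 : B.eval 0 = 0 := by rw [hBe]; simp
    rw [hB0] at e0
    have hA1 : 0 < |A.eval 1| := lt_of_le_of_lt (abs_nonneg _) (hAB 1 (by simp))
    have hA2 : A.eval 1 ≠ 0 := abs_pos.mp hA1
    simp only [eval_C] at e0 e1
    have e2 : (1 : ℝ) ^ 2 * (A.eval 1) ^ 2 + (1 - 1 ^ 2) * (B.eval 1) ^ 2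
        = 0 ^ 2 * (A.eval 0) ^ 2 + (1 - 0 ^ 2) * 0 ^ 2 := by rw [← e1, ← e0]
    norm_num at e2
    exact hA2 e2
  · rw [hP, hRe, hAe, hBe]

/-- families `2 ^ n * sqrt (1 - τ ^ 2) * W τ`, `τ = t / 2 ^ n` -/
theorem evenNull {φ : ℂ → ℝ} {Ψ : Fam → ℝ} (hG : Good φ Ψ) (hL : LineZero φ)
    (W : ℝ[X]) (m : ℕ) (hW : W.natDegree ≤ m)
    (hlow : ∀ x : ℝ, 1 ≤ |x| → |x| ^ m ≤ |W.eval x|) :
    Ψ (fun n t => ((2 ^ n * (Real.sqrt (1 - (t / 2 ^ n) ^ 2) * W.eval (t / 2 ^ n)) : ℝ) : ℂ)) = 0 := by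
  refine zero_of_families hG.pd _ fun N hN => ?_
  obtain ⟨l, hl, hP⟩ := evenFam W m hW hlow N hN
  have hev : ∀ t : ℝ, ∀ᶠ n : ℕ in atTop, |t / 2 ^ n| ≤ 1 := by
    intro t
    have h1 := tendsto_pow_atTop_atTop_of_one_lt (show (1 : ℝ) < 2 by norm_num)
    filter_upwards [h1.eventually_ge_atTop |t|] with n hn
    rw [abs_div, abs_of_pos (by positivity : (0 : ℝ) < 2 ^ n), div_le_one (by positivity)]
    exact hn
  refine ⟨fun i n t => 2 ^ n * ((W.eval (lam (l i) * (t / 2 ^ n)) : ℝ) *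
    (((l i * (t / 2 ^ n) : ℝ) : ℂ) + (Real.sqrt (1 - (t / 2 ^ n) ^ 2) : ℝ) * Complex.I)),
    fun i hi => ?_, fun i hi j hj hij => ?_⟩
  · obtain ⟨h0, h1⟩ := hl i hi
    refine Eq.trans ?_ (hG.scale (lam (l i)) (lam_pos h0 h1) _)
    refine hG.rel _ _ fun t => ?_
    filter_upwards [hev t] with n hn
    refine ⟨0, ?_⟩
    rw [zpow_zero, one_mul]
    set τ := t / 2 ^ n with hτ
    have hτ2 : lam (l i) * t / 2 ^ n = lam (l i) * τ := by rw [hτ]; ring
    rw [hτ2, norm_mul, norm_mul, Complex.norm_real, Complex.norm_real]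
    have hτ1 : τ ^ 2 ≤ 1 := by rw [← sq_abs]; exact pow_le_one₀ (abs_nonneg _) hn
    have hs : ‖((l i * τ : ℝ) : ℂ) + (Real.sqrt (1 - τ ^ 2) : ℝ) * Complex.I‖
        = Real.sqrt (1 - (lam (l i) * τ) ^ 2) := by
      rw [Complex.norm_add_mul_I]
      congr 1
      rw [Real.sq_sqrt (by linarith), mul_pow, mul_pow, lam_sq h0 h1]
      ring
    rw [hs, norm_pow, Complex.norm_ofNat, Real.norm_eq_abs, Real.norm_eq_abs, abs_mul, abs_mul,
      abs_of_pos (by positivity : (0 : ℝ) < 2 ^ n), abs_of_nonneg (Real.sqrt_nonneg _)]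
    ring
  · obtain ⟨P, hP1, hP2⟩ := hP i hi j hj hij
    rw [← scaledNull hG hL P hP1]
    refine hG.rel _ _ fun t => ?_
    filter_upwards [hev t] with n hn
    refine ⟨0, ?_⟩
    rw [zpow_zero, one_mul]
    set τ := t / 2 ^ n with hτ
    have hτ1 : τ ^ 2 ≤ 1 := by rw [← sq_abs]; exact pow_le_one₀ (abs_nonneg _) hn
    simp only [Pi.sub_apply]
    rw [← mul_sub, norm_mul, norm_mul]
    congr 1
    have h3 : (t : ℂ) / 2 ^ n = ((τ : ℝ) : ℂ) := by rw [hτ]; push_cast; rfl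
    rw [h3]
    have h4 : ((W.eval (lam (l i) * τ) : ℝ) : ℂ) *
        (((l i * τ : ℝ) : ℂ) + (Real.sqrt (1 - τ ^ 2) : ℝ) * Complex.I)
        - ((W.eval (lam (l j) * τ) : ℝ) : ℂ) *
        (((l j * τ : ℝ) : ℂ) + (Real.sqrt (1 - τ ^ 2) : ℝ) * Complex.I)
        = ((τ * (l i * W.eval (lam (l i) * τ) - l j * W.eval (lam (l j) * τ)) : ℝ) : ℂ)
          + ((Real.sqrt (1 - τ ^ 2) * (W.eval (lam (l i) * τ) - W.eval (lam (l j) * τ)) : ℝ) : ℂ)
            * Complex.I := by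
      push_cast
      ring
    rw [h4, Complex.norm_add_mul_I]
    have h5 : (τ * (l i * W.eval (lam (l i) * τ) - l j * W.eval (lam (l j) * τ))) ^ 2
        + (Real.sqrt (1 - τ ^ 2) * (W.eval (lam (l i) * τ) - W.eval (lam (l j) * τ))) ^ 2
        = ‖P.eval (τ : ℂ)‖ ^ 2 := by
      rw [hP2, mul_pow, mul_pow, Real.sq_sqrt (by linarith)]
    rw [h5, Real.sqrt_sq (norm_nonneg _)]

end Pool.Agent.H235R3.PT
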