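import Mathlib

set_option autoImplicit false

namespace Pool.Agent.H235R3.PT

open Finset Filter Topology
open scoped RealInnerProductSpace

variable {G : Type*} [AddCommGroup G]

/-- real positive-definite function on an additive group -/
structure PD (φ : G → ℝ) : Prop where
  symm : ∀ x, φ (-x) = φ x
  nonneg : ∀ (s : Finset G) (u : G → ℝ), 0 ≤ ∑ x ∈ s, ∑ y ∈ s, u x * u y * φ (x - y)

/-- the space on which the form of `φ` lives -/
def V (φ : G → ℝ) : Type _ := (fun _ => G →₀ ℝ) φ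

noncomputable instance (φ : G → ℝ) : AddCommGroup (V φ) := inferInstanceAs (AddCommGroup (G →₀ ℝ))
noncomputable instance (φ : G → ℝ) : Module ℝ (V φ) := inferInstanceAs (Module ℝ (G →₀ ℝ))

/-- the form -/
noncomputable def form (φ : G → ℝ) (u v : G →₀ ℝ) : ℝ :=
  Finsupp.linearCombination ℝ (fun x => Finsupp.linearCombination ℝ (fun y => φ (x - y)) v) u

theorem form_eq (φ : G → ℝ) (u v : G →₀ ℝ) :
    form φ u v = ∑ x ∈ u.support, ∑ y ∈ v.support, u x * (v y * φ (x - y)) := by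
  simp [form, Finsupp.linearCombination_apply, Finsupp.sum, Finset.mul_sum]

theorem form_comm (φ : G → ℝ) (h : PD φ) (u v : G →₀ ℝ) : form φ v u = form φ u v := by
  rw [form_eq, form_eq, Finset.sum_comm]
  refine Finset.sum_congr rfl fun x _ => Finset.sum_congr rfl fun y _ => ?_
  rw [← h.symm (x - y), neg_sub]
  ring

theorem form_self_nonneg (φ : G → ℝ) (h : PD φ) (u : G →₀ ℝ) : 0 ≤ form φ u u := by
  have := h.nonneg u.support u
  rw [form_eq]
  simpa [mul_assoc] using this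

theorem form_mapDomain (φ : G → ℝ) (g : G → G) (hg : ∀ x y, φ (g x - g y) = φ (x - y))
    (u v : G →₀ ℝ) : form φ (Finsupp.mapDomain g u) (Finsupp.mapDomain g v) = form φ u v := by
  unfold form
  rw [Finsupp.linearCombination_mapDomain]
  congr 2
  ext x
  simp only [Function.comp]
  rw [Finsupp.linearCombination_mapDomain]
  congr 2
  ext y
  simp [hg]

@[instance_reducible]
noncomputable def preCore (φ : G → ℝ) (h : PD φ) : PreInnerProductSpace.Core ℝ (V φ) where
  inner u v := form φ u v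
  conj_inner_symm u v := form_comm φ h u v
  re_inner_nonneg u := form_self_nonneg φ h u
  add_left u v w := by
    exact map_add (Finsupp.linearCombination ℝ _) _ _
  smul_left u v r := by
    exact map_smul (Finsupp.linearCombination ℝ _) _ _

noncomputable instance (φ : G → ℝ) [h : Fact (PD φ)] : SeminormedAddCommGroup (V φ) :=
  @InnerProductSpace.Core.toSeminormedAddCommGroup ℝ (V φ) _ _ _ (preCore φ h.out)

noncomputable instance (φ : G → ℝ) [h : Fact (PD φ)] : InnerProductSpace ℝ (V φ) :=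
  InnerProductSpace.ofCore (preCore φ h.out)

/-- basis vectors -/
noncomputable def e (φ : G → ℝ) (x : G) : V φ := (Finsupp.single x (1 : ℝ) : G →₀ ℝ)

theorem inner_e (φ : G → ℝ) [h : Fact (PD φ)] (x y : G) : ⟪e φ x, e φ y⟫ = φ (x - y) := by
  change form φ (Finsupp.single x 1) (Finsupp.single y 1) = _
  simp [form]

theorem norm_e_sq (φ : G → ℝ) [h : Fact (PD φ)] (x : G) : ‖e φ x‖ ^ 2 = φ 0 := by
  rw [← real_inner_self_eq_norm_sq, inner_e, sub_self]

theorem PD.zero_nonneg {φ : G → ℝ} (h : PD φ) : 0 ≤ φ 0 := by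
  have : Fact (PD φ) := ⟨h⟩
  rw [← norm_e_sq φ 0]; positivity

theorem PD.abs_le {φ : G → ℝ} (h : PD φ) (x : G) : |φ x| ≤ φ 0 := by
  have : Fact (PD φ) := ⟨h⟩
  have h1 := abs_real_inner_le_norm (e φ x) (e φ 0)
  rw [inner_e, sub_zero] at h1
  have h2 : ‖e φ x‖ = Real.sqrt (φ 0) := by
    rw [← norm_e_sq φ x, Real.sqrt_sq (norm_nonneg _)]
  have h3 : ‖e φ 0‖ = Real.sqrt (φ 0) := by
    rw [← norm_e_sq φ 0, Real.sqrt_sq (norm_nonneg _)]
  rw [h2, h3, Real.mul_self_sqrt h.zero_nonneg] at h1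
  exact h1

theorem norm_e (φ : G → ℝ) [h : Fact (PD φ)] (x : G) : ‖e φ x‖ = Real.sqrt (φ 0) := by
  rw [← norm_e_sq φ x, Real.sqrt_sq (norm_nonneg _)]

/-- squared norm of a finite combination -/
theorem norm_sum_sq {φ : G → ℝ} [h : Fact (PD φ)] {ι : Type*} (s : Finset ι) (p : ι → ℝ)
    (x : ι → G) :
    ‖∑ i ∈ s, p i • e φ (x i)‖ ^ 2 = ∑ i ∈ s, ∑ j ∈ s, p i * p j * φ (x i - x j) := by
  rw [← real_inner_self_eq_norm_sq, sum_inner]
  refine Finset.sum_congr rfl fun i _ => ?_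
  rw [inner_sum]
  refine Finset.sum_congr rfl fun j _ => ?_
  rw [inner_smul_left, inner_smul_right, inner_e]
  simp [mul_assoc]

/-- Cauchy–Schwarz in the form used by the differencing argument. -/
theorem vdc {φ : G → ℝ} (h : PD φ) {ι : Type*} (s : Finset ι) (p : ι → ℝ) (x : ι → G) :
    (∑ i ∈ s, p i * φ (x i)) ^ 2 ≤ (∑ i ∈ s, ∑ j ∈ s, p i * p j * φ (x i - x j)) * φ 0 := by
  have : Fact (PD φ) := ⟨h⟩
  have h1 : ∑ i ∈ s, p i * φ (x i) = ⟪∑ i ∈ s, p i • e φ (x i), e φ 0⟫ := by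
    rw [sum_inner]
    refine Finset.sum_congr rfl fun i _ => ?_
    rw [inner_smul_left, inner_e, sub_zero]
    simp
  rw [h1, ← norm_sum_sq, ← norm_e_sq φ 0]
  have h2 := abs_real_inner_le_norm (∑ i ∈ s, p i • e φ (x i)) (e φ 0)
  rw [← sq_abs, ← mul_pow]
  exact pow_le_pow_left₀ (abs_nonneg _) h2 2

/-- the operator induced by a map of the group -/
noncomputable def lift (φ : G → ℝ) (g : G → G) : V φ →ₗ[ℝ] V φ :=
  (Finsupp.lmapDomain ℝ ℝ g : (G →₀ ℝ) →ₗ[ℝ] (G →₀ ℝ))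

theorem lift_e (φ : G → ℝ) (g : G → G) (x : G) : lift φ g (e φ x) = e φ (g x) := by
  change Finsupp.mapDomain g (Finsupp.single x 1) = Finsupp.single (g x) 1
  simp

theorem inner_lift (φ : G → ℝ) [h : Fact (PD φ)] (g : G → G)
    (hg : ∀ x y, φ (g x - g y) = φ (x - y)) (u v : V φ) :
    ⟪lift φ g u, lift φ g v⟫ = ⟪u, v⟫ :=
  form_mapDomain φ g hg u v

theorem norm_lift (φ : G → ℝ) [h : Fact (PD φ)] (g : G → G)
    (hg : ∀ x y, φ (g x - g y) = φ (x - y)) (u : V φ) : ‖lift φ g u‖ = ‖u‖ := by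
  have h1 := inner_lift φ g hg u u
  rw [real_inner_self_eq_norm_sq, real_inner_self_eq_norm_sq] at h1
  exact (sq_eq_sq₀ (norm_nonneg _) (norm_nonneg _)).mp h1

end Pool.Agent.H235R3.PT
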