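import Pool.Agent.H235R3.PT.Col

set_option autoImplicit false

namespace Pool.Agent.H235R3.PT

open Finset Filter Topology

/-- families of points of the plane with a radius index and a real parameter -/
abbrev Fam := ℕ → ℝ → ℂ

/-- eventually equal lengths up to powers of two -/
def Rel (x y : Fam) : Prop := ∀ t, ∀ᶠ n in atTop, ∃ k : ℤ, ‖x n t‖ = 2 ^ k * ‖y n t‖

structure Good (φ : ℂ → ℝ) (Ψ : Fam → ℝ) : Prop where
  pd : PD Ψ
  rel : ∀ x y, Rel x y → Ψ x = Ψ y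
  const : ∀ z : ℂ, Ψ (fun _ _ => z) = φ z
  shift : ∀ (b : ℝ) (x : Fam), Ψ (fun n t => x n (t + b)) = Ψ x
  scale : ∀ l : ℝ, 0 < l → ∀ x : Fam, Ψ (fun n t => x n (l * t)) = Ψ x

theorem phi_norm {φ : ℂ → ℝ} (hinv : ∀ a x : ℂ, ∀ n : ℕ, ‖a‖ = 2 ^ n → φ (a * x) = φ x)
    (x y : ℂ) (k : ℤ) (h : ‖x‖ = 2 ^ k * ‖y‖) : φ x = φ y := by
  by_cases hy : y = 0
  · have : ‖x‖ = 0 := by rw [h, hy]; simp
    rw [norm_eq_zero.mp this, hy]
  have hy' : ‖y‖ ≠ 0 := norm_ne_zero_iff.mpr hy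
  have hx : x ≠ 0 := by
    intro h0
    rw [h0, norm_zero] at h
    have : (0 : ℝ) < 2 ^ k * ‖y‖ := by positivity
    linarith
  have hx' : ‖x‖ ≠ 0 := norm_ne_zero_iff.mpr hx
  obtain ⟨n, rfl | rfl⟩ := Int.eq_nat_or_neg k
  · have h1 : ‖x / y‖ = 2 ^ n := by
      rw [norm_div, h, zpow_natCast]; field_simp
    have := hinv (x / y) y n h1
    rwa [div_mul_cancel₀ _ hy] at this
  · have h1 : ‖y / x‖ = 2 ^ n := by
      rw [norm_div, h, zpow_neg, zpow_natCast]; field_simp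
    have := hinv (y / x) x n h1
    rw [div_mul_cancel₀ _ hx] at this
    exact this.symm

/-- the compact convex set in which the invariant extension is found -/
def ExtSet (φ : ℂ → ℝ) : Set (Fam → ℝ) :=
  {Ψ | (∀ x, |Ψ x| ≤ φ 0) ∧ ((∀ x, Ψ (-x) = Ψ x) ∧
    ∀ (s : Finset Fam) (u : Fam → ℝ), 0 ≤ ∑ x ∈ s, ∑ y ∈ s, u x * u y * Ψ (x - y)) ∧
    (∀ x y, Rel x y → Ψ x = Ψ y) ∧ ∀ z : ℂ, Ψ (fun _ _ => z) = φ z}

theorem extSet_closed (φ : ℂ → ℝ) : IsClosed (ExtSet φ) := by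
  have e1 : IsClosed {Ψ : Fam → ℝ | ∀ x, |Ψ x| ≤ φ 0} := by
    simp only [Set.ofPred_forall]
    exact isClosed_iInter fun p => isClosed_le (continuous_ev p).abs continuous_const
  have e2 : IsClosed {Ψ : Fam → ℝ | ∀ x, Ψ (-x) = Ψ x} := by
    simp only [Set.ofPred_forall]
    exact isClosed_iInter fun x => isClosed_eq (continuous_ev _) (continuous_ev _)
  have e3 : IsClosed {Ψ : Fam → ℝ | ∀ (s : Finset Fam) (u : Fam → ℝ),
      0 ≤ ∑ x ∈ s, ∑ y ∈ s, u x * u y * Ψ (x - y)} := by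
    simp only [Set.ofPred_forall]
    refine isClosed_iInter fun s => isClosed_iInter fun u => isClosed_le continuous_const ?_
    refine continuous_finsetSum _ fun x _ => continuous_finsetSum _ fun y _ => ?_
    exact continuous_const.mul (continuous_ev _)
  have e4 : IsClosed {Ψ : Fam → ℝ | ∀ x y, Rel x y → Ψ x = Ψ y} := by
    simp only [Set.ofPred_forall]
    exact isClosed_iInter fun x => isClosed_iInter fun y => isClosed_iInter fun _ =>
      isClosed_eq (continuous_ev _) (continuous_ev _)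
  have e5 : IsClosed {Ψ : Fam → ℝ | ∀ z : ℂ, Ψ (fun _ _ => z) = φ z} := by
    simp only [Set.ofPred_forall]
    exact isClosed_iInter fun x => isClosed_eq (continuous_ev _) continuous_const
  exact e1.inter ((e2.inter e3).inter (e4.inter e5))

theorem extSet_convex (φ : ℂ → ℝ) : Convex ℝ (ExtSet φ) := by
  intro K hK L hL a b ha hb hab
  refine ⟨fun p => ?_, ⟨fun x => ?_, fun s u => ?_⟩, fun x y h => ?_, fun z => ?_⟩
  · simp only [Pi.add_apply, Pi.smul_apply, smul_eq_mul]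
    calc |a * K p + b * L p| ≤ |a * K p| + |b * L p| := abs_add_le _ _
      _ = a * |K p| + b * |L p| := by rw [abs_mul, abs_mul, abs_of_nonneg ha, abs_of_nonneg hb]
      _ ≤ a * φ 0 + b * φ 0 := by gcongr; exact hK.1 p; exact hL.1 p
      _ = φ 0 := by rw [← add_mul, hab, one_mul]
  · simp only [Pi.add_apply, Pi.smul_apply, smul_eq_mul]
    rw [hK.2.1.1 x, hL.2.1.1 x]
  · have h1 := hK.2.1.2 s u
    have h2 := hL.2.1.2 s u
    have h3 : ∑ x ∈ s, ∑ y ∈ s, u x * u y * (a • K + b • L) (x - y)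
        = a * (∑ x ∈ s, ∑ y ∈ s, u x * u y * K (x - y))
          + b * (∑ x ∈ s, ∑ y ∈ s, u x * u y * L (x - y)) := by
      simp only [Pi.add_apply, Pi.smul_apply, smul_eq_mul, Finset.mul_sum, ← Finset.sum_add_distrib]
      refine Finset.sum_congr rfl fun x _ => Finset.sum_congr rfl fun y _ => ?_
      ring
    rw [h3]
    exact add_nonneg (mul_nonneg ha h1) (mul_nonneg hb h2)
  · simp only [Pi.add_apply, Pi.smul_apply, smul_eq_mul]
    rw [hK.2.2.1 x y h, hL.2.2.1 x y h]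
  · simp only [Pi.add_apply, Pi.smul_apply, smul_eq_mul]
    rw [hK.2.2.2 z, hL.2.2.2 z, ← add_mul, hab, one_mul]

theorem extSet_comp (φ : ℂ → ℝ) (g : ℝ → ℝ) (Ψ : Fam → ℝ) (h : Ψ ∈ ExtSet φ)
    (hsurj : Function.Surjective g) :
    (fun x : Fam => Ψ (fun n t => x n (g t))) ∈ ExtSet φ := by
  classical
  let G : Fam → Fam := fun x n t => x n (g t)
  have hG : Function.Injective G := by
    intro x y hxy
    funext n t
    obtain ⟨s, rfl⟩ := hsurj t
    exact congrFun (congrFun hxy n) s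
  refine ⟨fun x => h.1 _, ⟨fun x => ?_, fun s u => ?_⟩, fun x y hxy => ?_, fun z => ?_⟩
  · exact h.2.1.1 (G x)
  · have h1 := h.2.1.2 (s.image G) (fun z => u (Function.invFun G z))
    have hinv : ∀ x, Function.invFun G (G x) = x := Function.leftInverse_invFun hG
    simp only [Finset.sum_image (fun x _ y _ h => hG h), hinv] at h1
    exact h1
  · refine h.2.2.1 _ _ fun t => ?_
    exact hxy (g t)
  · exact h.2.2.2 z

theorem extSet_nonempty (φ : ℂ → ℝ) (hφ : PD φ)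
    (hinv : ∀ a x : ℂ, ∀ n : ℕ, ‖a‖ = 2 ^ n → φ (a * x) = φ x) : (ExtSet φ).Nonempty := by
  classical
  let 𝒰 : Ultrafilter ℕ := hyperfilter ℕ
  have h𝒰 : (𝒰 : Filter ℕ) ≤ atTop := by
    rw [← Nat.cofinite_eq_atTop]
    exact hyperfilter_le_cofinite
  let F : ℕ → Fam → ℝ := fun n x => φ (x n 0)
  have hcube : IsCompact (Set.pi Set.univ (fun _ : Fam => Set.Icc (-(φ 0)) (φ 0))) :=
    isCompact_univ_pi (fun _ => isCompact_Icc)
  have hle : (𝒰.map F : Filter (Fam → ℝ)) ≤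
      𝓟 (Set.pi Set.univ (fun _ : Fam => Set.Icc (-(φ 0)) (φ 0))) := by
    rw [le_principal_iff]
    refine Filter.mem_map.mpr (Filter.univ_mem' fun n x _ => ?_)
    exact abs_le.mp (hφ.abs_le _)
  obtain ⟨Ψ, _, hΨ⟩ := hcube.ultrafilter_le_nhds (𝒰.map F) hle
  have hT : Tendsto F 𝒰 (𝓝 Ψ) := hΨ
  have hx : ∀ x, Tendsto (fun n => φ (x n 0)) 𝒰 (𝓝 (Ψ x)) := fun x =>
    (tendsto_pi_nhds.mp hT) x
  refine ⟨Ψ, fun x => ?_, ⟨fun x => ?_, fun s u => ?_⟩, fun x y h => ?_, fun z => ?_⟩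
  · exact le_of_tendsto (hx x).abs (Eventually.of_forall fun n => hφ.abs_le _)
  · refine tendsto_nhds_unique (hx (-x)) ?_
    refine (hx x).congr fun n => ?_
    simp only [Pi.neg_apply]
    exact (hφ.symm _).symm
  · have ht : Tendsto (fun n => ∑ x ∈ s, ∑ y ∈ s, u x * u y * φ (x n 0 - y n 0)) 𝒰
        (𝓝 (∑ x ∈ s, ∑ y ∈ s, u x * u y * Ψ (x - y))) := by
      refine tendsto_finsetSum _ fun x _ => tendsto_finsetSum _ fun y _ => ?_
      exact (hx (x - y)).const_mul _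
    refine ge_of_tendsto ht (Eventually.of_forall fun n => ?_)
    have hF : Fact (PD φ) := ⟨hφ⟩
    have h1 := norm_sum_sq (φ := φ) s u (fun x => x n 0)
    rw [← h1]
    positivity
  · refine tendsto_nhds_unique (hx x) ?_
    refine (hx y).congr' ?_
    filter_upwards [h𝒰 (h 0)] with n hn
    obtain ⟨k, hk⟩ := hn
    exact (phi_norm hinv _ _ k hk).symm
  · exact tendsto_nhds_unique (hx _) tendsto_const_nhds

theorem exists_good (φ : ℂ → ℝ) (hφ : PD φ)
    (hinv : ∀ a x : ℂ, ∀ n : ℕ, ‖a‖ = 2 ^ n → φ (a * x) = φ x) : ∃ Ψ, Good φ Ψ := by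
  let σ : ℝ → Fam → Fam := fun b x n t => x n (t + b)
  obtain ⟨Ψ1, h1, h1i⟩ := exists_invariant σ (fun i j x => by
      funext n t; simp only [σ]; congr 1; ring)
    (ExtSet φ) (φ 0) (extSet_nonempty φ hφ hinv) (extSet_closed φ) (extSet_convex φ)
    (fun f hf x => hf.1 x)
    (fun b Ψ hΨ => extSet_comp φ (fun t => t + b) Ψ hΨ (add_right_surjective b))
  let K2 : Set (Fam → ℝ) := ExtSet φ ∩ {Ψ | ∀ b x, Ψ (σ b x) = Ψ x}
  have hcl2 : IsClosed {Ψ : Fam → ℝ | ∀ b x, Ψ (σ b x) = Ψ x} := by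
    simp only [Set.ofPred_forall]
    exact isClosed_iInter fun x => isClosed_iInter fun y =>
      isClosed_eq (continuous_ev _) (continuous_ev _)
  have hcv2 : Convex ℝ {Ψ : Fam → ℝ | ∀ b x, Ψ (σ b x) = Ψ x} := by
    intro K hK L hL a b _ _ _ z p
    simp only [Pi.add_apply, Pi.smul_apply, smul_eq_mul]
    rw [hK z p, hL z p]
  let τ : {l : ℝ // 0 < l} → Fam → Fam := fun l x n t => x n (l * t)
  obtain ⟨Ψ, hΨ, hΨi⟩ := exists_invariant τ (fun i j x => by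
      funext n t; simp only [τ]; congr 1; ring)
    K2 (φ 0) ⟨Ψ1, h1, h1i⟩ ((extSet_closed φ).inter hcl2) ((extSet_convex φ).inter hcv2)
    (fun f hf x => hf.1.1 x)
    (fun l Ψ hΨ => by
      have hl : (l : ℝ) ≠ 0 := l.2.ne'
      refine ⟨extSet_comp φ (fun t => l * t) Ψ hΨ.1 (mul_left_surjective₀ hl), ?_⟩
      intro b x
      have := hΨ.2 (b / l) (τ l x)
      simp only [σ, τ] at this ⊢
      rw [← this]
      congr 1
      funext n t
      congr 1
      field_simp)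
  refine ⟨Ψ, ⟨⟨hΨ.1.2.1.1, hΨ.1.2.1.2⟩, hΨ.1.2.2.1, hΨ.1.2.2.2, fun b x => hΨ.2 b x, ?_⟩⟩
  intro l hl x
  exact hΨi ⟨l, hl⟩ x

end Pool.Agent.H235R3.PT
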