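import Mathlib

set_option autoImplicit false

namespace Pool.Agent.H235R3.PT

open Finset Filter Topology

/-- one averaging step -/
noncomputable def avg {X : Type*} (s : X → X) (n : ℕ) (f : X → ℝ) : X → ℝ :=
  fun x => (∑ k ∈ range (n + 1), f (s^[k] x)) / (n + 1)

theorem avg_mem {X : Type*} (s : X → X) (K : Set (X → ℝ)) (hconv : Convex ℝ K)
    (hst : ∀ f ∈ K, (fun x => f (s x)) ∈ K) (n : ℕ) (f : X → ℝ) (hf : f ∈ K) :
    avg s n f ∈ K := by
  have hit : ∀ k, (fun x => f (s^[k] x)) ∈ K := by
    intro k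
    induction k with
    | zero => simpa using hf
    | succ k ih =>
      have := hst _ ih
      simpa [Function.iterate_succ] using this
  have h := hconv.sum_mem (t := range (n + 1)) (w := fun _ => (1 : ℝ) / (n + 1))
    (z := fun k => (fun x => f (s^[k] x))) (fun _ _ => by positivity)
    (by simp; field_simp) (fun k _ => hit k)
  convert h using 1
  ext x
  simp [avg, Finset.sum_apply, div_eq_inv_mul, Finset.mul_sum]

theorem avg_near {X : Type*} (s : X → X) (C : ℝ) (n : ℕ) (f : X → ℝ) (hf : ∀ x, |f x| ≤ C) (x : X) :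
    |avg s n f (s x) - avg s n f x| ≤ 2 * C / (n + 1) := by
  have h1 : avg s n f (s x) - avg s n f x = (f (s^[n + 1] x) - f x) / (n + 1) := by
    unfold avg
    rw [← sub_div]
    congr 1
    have : ∀ k, f (s^[k] (s x)) = f (s^[k + 1] x) := fun k => by
      rw [Function.iterate_succ_apply]
    simp only [this]
    rw [← Finset.sum_sub_distrib]
    have := Finset.sum_range_sub (fun k => f (s^[k] x)) (n + 1)
    simpa using this
  rw [h1, abs_div, abs_of_pos (by positivity : (0 : ℝ) < n + 1)]
  gcongr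
  calc |f (s^[n + 1] x) - f x| ≤ |f (s^[n + 1] x)| + |f x| := abs_sub _ _
    _ ≤ 2 * C := by linarith [hf (s^[n + 1] x), hf x]

theorem avg_stable {X : Type*} (s r : X → X) (hc : ∀ x, s (r x) = r (s x)) (D : ℝ) (n : ℕ)
    (f : X → ℝ) (hf : ∀ x, |f (r x) - f x| ≤ D) (x : X) :
    |avg s n f (r x) - avg s n f x| ≤ D := by
  have hck : ∀ k x, s^[k] (r x) = r (s^[k] x) := by
    intro k
    induction k with
    | zero => intro x; rfl
    | succ k ih => intro x; rw [Function.iterate_succ_apply, hc, ih, Function.iterate_succ_apply]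
  unfold avg
  rw [← sub_div, ← Finset.sum_sub_distrib, abs_div, abs_of_pos (by positivity : (0 : ℝ) < n + 1),
    div_le_iff₀ (by positivity)]
  calc |∑ k ∈ range (n + 1), (f (s^[k] (r x)) - f (s^[k] x))|
      ≤ ∑ k ∈ range (n + 1), |f (s^[k] (r x)) - f (s^[k] x)| := Finset.abs_sum_le_sum_abs _ _
    _ ≤ ∑ k ∈ range (n + 1), D := by
        apply Finset.sum_le_sum
        intro k _
        rw [hck]
        exact hf _
    _ = D * (n + 1) := by simp; ring

/-- A commuting family of maps acting by composition on a compact convex set of bounded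
functions has a common fixed point. -/
theorem exists_invariant {X ι : Type*} (σ : ι → X → X)
    (hcomm : ∀ i j x, σ i (σ j x) = σ j (σ i x))
    (K : Set (X → ℝ)) (C : ℝ) (hne : K.Nonempty) (hcl : IsClosed K) (hconv : Convex ℝ K)
    (hbd : ∀ f ∈ K, ∀ x, |f x| ≤ C)
    (hst : ∀ i, ∀ f ∈ K, (fun x => f (σ i x)) ∈ K) :
    ∃ f ∈ K, ∀ i x, f (σ i x) = f x := by
  classical
  have hC : 0 ≤ C ∨ IsEmpty X := by
    by_cases h : Nonempty X
    · left
      obtain ⟨x⟩ := h
      obtain ⟨f, hf⟩ := hne
      exact (abs_nonneg _).trans (hbd f hf x)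
    · right
      exact not_nonempty_iff.mp h
  have hcpt : IsCompact K := by
    have h1 : IsCompact (Set.pi Set.univ (fun _ : X => Set.Icc (-C) C)) :=
      isCompact_univ_pi (fun _ => isCompact_Icc)
    refine h1.of_isClosed_subset hcl ?_
    intro f hf x _
    exact abs_le.mp (hbd f hf x)
  let D : ι × ℕ → Set (X → ℝ) := fun p => {f | ∀ x, |f (σ p.1 x) - f x| ≤ 2 * C / (p.2 + 1)}
  have hD : ∀ p, IsClosed (D p) := by
    intro p
    have : D p = ⋂ x, {f : X → ℝ | |f (σ p.1 x) - f x| ≤ 2 * C / (p.2 + 1)} := by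
      ext f; simp [D]
    rw [this]
    refine isClosed_iInter fun x => ?_
    have h2 : Continuous fun f : X → ℝ => |f (σ p.1 x) - f x| :=
      ((continuous_apply (σ p.1 x)).sub (continuous_apply x)).abs
    exact isClosed_le h2 continuous_const
  have hfip : ∀ u : Finset (ι × ℕ), (K ∩ ⋂ p ∈ u, D p).Nonempty := by
    intro u
    induction u using Finset.induction_on with
    | empty => simpa using hne
    | insert p u hp ih =>
      obtain ⟨f, hfK, hfD⟩ := ih
      refine ⟨avg (σ p.1) p.2 f, avg_mem _ K hconv (hst p.1) _ _ hfK, ?_⟩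
      simp only [Set.mem_iInter]
      intro q hq
      rw [Finset.mem_insert] at hq
      rcases hq with rfl | hq
      · intro x
        exact avg_near _ _ _ _ (hbd f hfK) x
      · intro x
        have := Set.mem_iInter₂.mp hfD q hq
        exact avg_stable _ _ (fun x => hcomm _ _ x) _ _ _ this x
  obtain ⟨f, hfK, hfD⟩ := hcpt.inter_iInter_nonempty D hD hfip
  refine ⟨f, hfK, fun i x => ?_⟩
  rcases hC with hC | hC
  swap
  · exact hC.elim x
  by_contra hne'
  have hpos : 0 < |f (σ i x) - f x| := abs_pos.mpr (sub_ne_zero.mpr hne')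
  obtain ⟨n, hn⟩ := exists_nat_gt (2 * C / |f (σ i x) - f x|)
  have h1 := Set.mem_iInter.mp hfD (i, n) x
  simp only at h1
  have h2 : 2 * C / (n + 1) < |f (σ i x) - f x| := by
    rw [div_lt_iff₀ (by positivity)]
    rw [div_lt_iff₀ hpos] at hn
    nlinarith
  linarith

end Pool.Agent.H235R3.PT
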