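import Pool.Agent.H235R3.PT.Even

set_option autoImplicit false

namespace Pool.Agent.H235R3.PT

open Finset Filter Topology Polynomial

/-- lower bound for the Chebyshev polynomials of the second kind outside the unit interval -/
theorem U_lower (x : ℝ) (hx : 1 ≤ |x|) : ∀ m : ℕ,
    |x| ^ m ≤ |(Chebyshev.U ℝ m).eval x| ∧
    |x| * |(Chebyshev.U ℝ m).eval x| ≤ |(Chebyshev.U ℝ ((m + 1 : ℕ) : ℤ)).eval x| := by
  intro m
  induction m with
  | zero =>
    constructor
    · simp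
    · simp [Chebyshev.U_zero, Chebyshev.U_one, abs_mul]
      linarith [abs_nonneg x]
  | succ m ih =>
    obtain ⟨h1, h2⟩ := ih
    have h3 : |x| ^ (m + 1) ≤ |(Chebyshev.U ℝ ((m + 1 : ℕ) : ℤ)).eval x| := by
      calc |x| ^ (m + 1) = |x| * |x| ^ m := by ring
        _ ≤ |x| * |(Chebyshev.U ℝ m).eval x| := by gcongr
        _ ≤ _ := h2
    refine ⟨h3, ?_⟩
    have h4 : (Chebyshev.U ℝ ((m + 1 + 1 : ℕ) : ℤ)).eval x
        = 2 * x * (Chebyshev.U ℝ ((m + 1 : ℕ) : ℤ)).eval x - (Chebyshev.U ℝ (m : ℤ)).eval x := by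
      push_cast
      rw [add_assoc]
      norm_num
    rw [h4]
    set a := (Chebyshev.U ℝ ((m + 1 : ℕ) : ℤ)).eval x with ha
    set b := (Chebyshev.U ℝ (m : ℤ)).eval x with hb
    have h5 : |2 * x * a| - |b| ≤ |2 * x * a - b| := abs_sub_abs_le_abs_sub _ _
    have h6 : |2 * x * a| = 2 * (|x| * |a|) := by
      rw [abs_mul, abs_mul]; norm_num; ring
    have h7 : |b| ≤ |x| * |b| := le_mul_of_one_le_left (abs_nonneg _) hx
    have h8 : |a| ≤ |x| * |a| := le_mul_of_one_le_left (abs_nonneg _) hx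
    linarith

theorem norm_one_add (θ : ℝ) : ‖1 + Complex.exp (2 * (θ * Complex.I))‖ = 2 * |Real.cos θ| := by
  have h : 1 + Complex.exp (2 * (θ * Complex.I)) =
      Complex.exp (θ * Complex.I) * ((2 * Real.cos θ : ℝ) : ℂ) := by
    have h1 : Complex.exp (2 * (θ * Complex.I)) = Complex.exp (θ * Complex.I) ^ 2 := by
      rw [← Complex.exp_nat_mul]; norm_num
    have h2 : Complex.exp (θ * Complex.I) * Complex.exp (-θ * Complex.I) = 1 := by
      rw [← Complex.exp_add]; simp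
    push_cast
    rw [h1, Complex.two_cos]
    linear_combination -h2
  rw [h, norm_mul, Complex.norm_exp_ofReal_mul_I, one_mul, Complex.norm_real, Real.norm_eq_abs,
    abs_mul]
  norm_num

theorem norm_one_sub (θ : ℝ) : ‖1 - Complex.exp (2 * (θ * Complex.I))‖ = 2 * |Real.sin θ| := by
  have h : 1 - Complex.exp (2 * (θ * Complex.I)) =
      Complex.exp (θ * Complex.I) * ((2 * Real.sin θ : ℝ) : ℂ) * (-Complex.I) := by
    have h1 : Complex.exp (2 * (θ * Complex.I)) = Complex.exp (θ * Complex.I) ^ 2 := by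
      rw [← Complex.exp_nat_mul]; norm_num
    have h2 : Complex.exp (θ * Complex.I) * Complex.exp (-θ * Complex.I) = 1 := by
      rw [← Complex.exp_add]; simp
    push_cast
    rw [h1, Complex.two_sin]
    linear_combination -h2 + (Complex.exp (θ * Complex.I) *
      (Complex.exp (-θ * Complex.I) - Complex.exp (θ * Complex.I))) * Complex.I_sq
  rw [h, norm_mul, norm_mul, Complex.norm_exp_ofReal_mul_I, one_mul, Complex.norm_real,
    Real.norm_eq_abs, abs_mul]
  simp

/-- the points on the circle of radius `2 ^ n` -/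
noncomputable def pt (j : ℕ) : Fam := fun n t =>
  2 ^ n * ((-1) ^ j * Complex.exp (2 * ((j * Real.arccos (t / 2 ^ n) : ℝ) * Complex.I)))

theorem norm_pt (j n : ℕ) (t : ℝ) : ‖pt j n t‖ = 2 ^ n := by
  unfold pt
  rw [norm_mul, norm_mul, norm_pow, norm_pow, norm_neg, norm_one, one_pow, one_mul,
    Complex.norm_ofNat]
  have : (2 : ℂ) * ((j * Real.arccos (t / 2 ^ n) : ℝ) * Complex.I)
      = ((2 * (j * Real.arccos (t / 2 ^ n)) : ℝ) : ℂ) * Complex.I := by push_cast; ring
  rw [this, Complex.norm_exp_ofReal_mul_I, mul_one]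

theorem norm_pt_sub (i d n : ℕ) (t : ℝ) :
    ‖pt i n t - pt (i + d) n t‖ =
      2 ^ n * ‖1 - (-1) ^ d * Complex.exp (2 * ((d * Real.arccos (t / 2 ^ n) : ℝ) * Complex.I))‖ := by
  have h : pt i n t - pt (i + d) n t = pt i n t *
      (1 - (-1) ^ d * Complex.exp (2 * ((d * Real.arccos (t / 2 ^ n) : ℝ) * Complex.I))) := by
    unfold pt
    have h1 : Complex.exp (2 * (((i + d : ℕ) * Real.arccos (t / 2 ^ n) : ℝ) * Complex.I))
        = Complex.exp (2 * ((i * Real.arccos (t / 2 ^ n) : ℝ) * Complex.I))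
          * Complex.exp (2 * ((d * Real.arccos (t / 2 ^ n) : ℝ) * Complex.I)) := by
      rw [← Complex.exp_add]; congr 1; push_cast; ring
    rw [h1, pow_add]
    ring
  rw [h, norm_mul, norm_pt]

theorem ev_small (t : ℝ) : ∀ᶠ n : ℕ in atTop, |t / 2 ^ n| ≤ 1 := by
  have h1 := tendsto_pow_atTop_atTop_of_one_lt (show (1 : ℝ) < 2 by norm_num)
  filter_upwards [h1.eventually_ge_atTop |t|] with n hn
  rw [abs_div, abs_of_pos (by positivity : (0 : ℝ) < 2 ^ n), div_le_one (by positivity)]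
  exact hn

theorem pt_orth {φ : ℂ → ℝ} {Ψ : Fam → ℝ} (hG : Good φ Ψ) (hL : LineZero φ) (i d : ℕ)
    (hd : 1 ≤ d) : Ψ (pt i - pt (i + d)) = 0 := by
  rcases Nat.even_or_odd d with he | ho
  · obtain ⟨m, rfl⟩ : ∃ m, d = m + 1 := ⟨d - 1, by omega⟩
    have hW : (Chebyshev.U ℝ (m : ℤ)).natDegree ≤ m := by
      rw [Chebyshev.natDegree_U_natCast]
    rw [← evenNull hG hL (Chebyshev.U ℝ (m : ℤ)) m hW (fun x hx => (U_lower x hx m).1)]
    refine hG.rel _ _ fun t => ?_
    filter_upwards [ev_small t] with n hn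
    refine ⟨1, ?_⟩
    simp only [Pi.sub_apply]
    rw [norm_pt_sub, he.neg_one_pow, one_mul, norm_one_sub]
    set τ := t / 2 ^ n with hτ
    have h1 := abs_le.mp hn
    have h2 := Chebyshev.U_real_cos (Real.arccos τ) (m : ℤ)
    rw [Real.cos_arccos h1.1 h1.2, Real.sin_arccos] at h2
    have h3 : ((m + 1 : ℕ) : ℝ) * Real.arccos τ = (((m : ℤ) : ℝ) + 1) * Real.arccos τ := by
      push_cast; ring
    rw [h3, ← h2, Complex.norm_real, Real.norm_eq_abs, abs_mul, abs_mul, abs_mul,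
      abs_of_pos (by positivity : (0 : ℝ) < 2 ^ n)]
    ring
  · have hT : 1 ≤ (Chebyshev.T ℂ (d : ℤ)).natDegree := by
      rw [Chebyshev.natDegree_T]; simpa using hd
    rw [← scaledNull hG hL (Chebyshev.T ℂ (d : ℤ)) hT]
    refine hG.rel _ _ fun t => ?_
    filter_upwards [ev_small t] with n hn
    refine ⟨1, ?_⟩
    simp only [Pi.sub_apply]
    rw [norm_pt_sub, ho.neg_one_pow]
    set τ := t / 2 ^ n with hτ
    have h1 := abs_le.mp hn
    have h2 := Chebyshev.T_real_cos (Real.arccos τ) (d : ℤ)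
    rw [Real.cos_arccos h1.1 h1.2] at h2
    have h4 : (t : ℂ) / 2 ^ n = ((τ : ℝ) : ℂ) := by rw [hτ]; push_cast; rfl
    rw [h4, ← Chebyshev.complex_ofReal_eval_T, h2, neg_one_mul, sub_neg_eq_add, norm_one_add,
      norm_mul, norm_pow, Complex.norm_ofNat, Complex.norm_real, Real.norm_eq_abs]
    push_cast
    ring

/-- No finite colouring of the plane avoids all distances that are powers of two. -/
theorem plane {k : ℕ} (c : ℂ → Fin k) (hc : ∀ x y, ∀ n : ℕ, ‖x - y‖ = 2 ^ n → c x ≠ c y) :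
    False := by
  obtain ⟨φ, hφ, hm, hneg, hinv⟩ := exists_phi c hc
  have hr : ∀ u x : ℂ, ‖u‖ = 1 → φ (u * x) = φ x := fun u x hu => hinv u x 0 (by simpa using hu)
  have hL := lineZero φ hφ hr hm
  obtain ⟨Ψ, hG⟩ := exists_good φ hφ hinv
  have h0 : φ 1 = 0 := by
    refine zero_of_families hG.pd _ fun N _ => ⟨pt, fun i _ => ?_, fun i _ j _ hij => ?_⟩
    · rw [← hG.const]
      refine hG.rel _ _ fun t => Eventually.of_forall fun n => ⟨n, ?_⟩
      rw [norm_pt]; simp
    · rcases Nat.lt_or_gt_of_ne hij with h | h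
      · obtain ⟨d, rfl⟩ := Nat.exists_eq_add_of_lt h
        rw [add_assoc]
        exact pt_orth hG hL i (d + 1) (by omega)
      · obtain ⟨d, rfl⟩ := Nat.exists_eq_add_of_lt h
        rw [← hG.pd.symm, neg_sub, add_assoc]
        exact pt_orth hG hL j (d + 1) (by omega)
  linarith

end Pool.Agent.H235R3.PT
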