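import Pool.Agent.H235R3.PT.Gns

set_option autoImplicit false

namespace Pool.Agent.H235R3.PT

open Finset Filter Topology
open scoped RealInnerProductSpace

variable {G : Type*} [AddCommGroup G]

/-- convex combinations of the basis vectors can be made arbitrarily small -/
def MeanZero (φ : G → ℝ) : Prop :=
  ∀ ε > 0, ∃ (ι : Type) (_ : Fintype ι) (p : ι → ℝ) (x : ι → G),
    (∀ i, 0 ≤ p i) ∧ ∑ i, p i = 1 ∧ ∑ i, ∑ j, p i * p j * φ (x i - x j) < ε

/-- translation operator -/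
noncomputable def tr (φ : G → ℝ) (z : G) : V φ →ₗ[ℝ] V φ := lift φ (fun x => x + z)

theorem tr_e (φ : G → ℝ) (z x : G) : tr φ z (e φ x) = e φ (x + z) := lift_e _ _ _

theorem norm_tr (φ : G → ℝ) [h : Fact (PD φ)] (z : G) (v : V φ) : ‖tr φ z v‖ = ‖v‖ :=
  norm_lift φ _ (fun x y => by simp) v

theorem inner_tr (φ : G → ℝ) [h : Fact (PD φ)] (z : G) (v w : V φ) :
    ⟪tr φ z v, tr φ z w⟫ = ⟪v, w⟫ :=
  inner_lift φ _ (fun x y => by simp) v w

theorem lift_lift (φ : G → ℝ) (g g' : G → G) (v : V φ) :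
    lift φ g (lift φ g' v) = lift φ (fun x => g (g' x)) v := by
  change Finsupp.mapDomain g (Finsupp.mapDomain g' v) = Finsupp.mapDomain (g ∘ g') v
  exact (Finsupp.mapDomain_comp (f := g') (g := g) (v := v)).symm

theorem conv_bound (φ : G → ℝ) [h : Fact (PD φ)] {ι κ : Type*} [Fintype ι]
    (p : ι → ℝ) (x : ι → G) (hp : ∀ i, 0 ≤ p i) (hp1 : ∑ i, p i = 1)
    (s : Finset κ) (q : κ → ℝ) (z : κ → G) :
    ‖∑ k ∈ s, q k • tr φ (z k) (∑ i, p i • e φ (x i))‖ ≤ ‖∑ k ∈ s, q k • e φ (z k)‖ := by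
  have h1 : ∑ k ∈ s, q k • tr φ (z k) (∑ i, p i • e φ (x i))
      = ∑ i, p i • tr φ (x i) (∑ k ∈ s, q k • e φ (z k)) := by
    simp only [map_sum, map_smul, tr_e, Finset.smul_sum]
    rw [Finset.sum_comm]
    refine Finset.sum_congr rfl fun i _ => Finset.sum_congr rfl fun k _ => ?_
    rw [smul_comm, add_comm]
  rw [h1]
  calc ‖∑ i, p i • tr φ (x i) (∑ k ∈ s, q k • e φ (z k))‖
      ≤ ∑ i, ‖p i • tr φ (x i) (∑ k ∈ s, q k • e φ (z k))‖ := norm_sum_le _ _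
    _ = ∑ i, p i * ‖∑ k ∈ s, q k • e φ (z k)‖ := by
        refine Finset.sum_congr rfl fun i _ => ?_
        rw [norm_smul, norm_tr, Real.norm_of_nonneg (hp i)]
    _ = ‖∑ k ∈ s, q k • e φ (z k)‖ := by rw [← Finset.sum_mul, hp1, one_mul]

theorem near {E : Type*} [SeminormedAddCommGroup E] [InnerProductSpace ℝ E] (H : Set E)
    (hH : Convex ℝ H) (c η : ℝ) (hc : ∀ v ∈ H, c ≤ ‖v‖ ^ 2) (v w : E) (hv : v ∈ H) (hw : w ∈ H)
    (hv1 : ‖v‖ ^ 2 ≤ c + η) (hw1 : ‖w‖ ^ 2 ≤ c + η) : ‖v - w‖ ^ 2 ≤ 4 * η := by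
  have hm : (1 / 2 : ℝ) • v + (1 / 2 : ℝ) • w ∈ H := hH hv hw (by norm_num) (by norm_num) (by norm_num)
  have h1 := hc _ hm
  rw [← smul_add, norm_smul, mul_pow] at h1
  have h2 := parallelogram_law_with_norm ℝ v w
  norm_num at h1
  nlinarith

/-- removing the mean -/
theorem exists_meanZero (φ : G → ℝ) (h : PD φ) :
    ∃ c : ℝ, 0 ≤ c ∧ PD (fun x => φ x - c) ∧ MeanZero (fun x => φ x - c) := by
  have hF : Fact (PD φ) := ⟨h⟩
  set H : Set (V φ) := convexHull ℝ (Set.range (e φ)) with hH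
  have hHc : Convex ℝ H := convex_convexHull _ _
  set S : Set ℝ := (fun v : V φ => ‖v‖ ^ 2) '' H with hS
  have hSne : S.Nonempty := ⟨_, e φ 0, subset_convexHull _ _ ⟨0, rfl⟩, rfl⟩
  have hSb : BddBelow S := ⟨0, by rintro _ ⟨v, _, rfl⟩; positivity⟩
  set c := sInf S with hc
  have hc0 : 0 ≤ c := le_csInf hSne (by rintro _ ⟨v, _, rfl⟩; positivity)
  have hcle : ∀ v ∈ H, c ≤ ‖v‖ ^ 2 := fun v hv => csInf_le hSb ⟨v, hv, rfl⟩
  have hrep : ∀ η > 0, ∃ (ι : Type) (_ : Fintype ι) (p : ι → ℝ) (x : ι → G),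
      (∀ i, 0 ≤ p i) ∧ ∑ i, p i = 1 ∧ ‖∑ i, p i • e φ (x i)‖ ^ 2 < c + η := by
    intro η hη
    obtain ⟨_, ⟨v, hv, rfl⟩, hlt⟩ := exists_lt_of_csInf_lt hSne (show sInf S < c + η by linarith)
    obtain ⟨ι, hι, p, z, hp, hp1, hz, rfl⟩ := mem_convexHull_iff_exists_fintype.mp hv
    choose x hx using hz
    refine ⟨ι, hι, p, x, hp, hp1, ?_⟩
    simpa [hx] using hlt
  have hmain : ∀ (s : Finset G) (u : G → ℝ),
      Real.sqrt c * |∑ x ∈ s, u x| ≤ ‖∑ x ∈ s, u x • e φ x‖ := by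
    intro s u
    apply le_of_forall_pos_le_add
    intro ε hε
    set L := ∑ x ∈ s, |u x| with hL
    have hL0 : 0 ≤ L := Finset.sum_nonneg fun _ _ => abs_nonneg _
    set δ := ε / (2 * (L + 1)) with hδ
    have hδ0 : 0 < δ := by positivity
    obtain ⟨ι, hι, p, x, hp, hp1, hlt⟩ := hrep (δ ^ 2) (by positivity)
    set v : V φ := ∑ i, p i • e φ (x i) with hv
    have hvH : v ∈ H := hHc.sum_mem (fun i _ => hp i) hp1 (fun i _ => subset_convexHull _ _ ⟨_, rfl⟩)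
    have htr : ∀ z, ‖tr φ z v - v‖ ≤ 2 * δ := by
      intro z
      have h1 : tr φ z v ∈ H := by
        have : tr φ z v = ∑ i, p i • e φ (x i + z) := by simp [hv, map_sum, map_smul, tr_e]
        rw [this]
        exact hHc.sum_mem (fun i _ => hp i) hp1 (fun i _ => subset_convexHull _ _ ⟨_, rfl⟩)
      have h2 := near H hHc c (δ ^ 2) hcle _ _ h1 hvH (by rw [norm_tr]; exact hlt.le) hlt.le
      have h3 : ‖tr φ z v - v‖ ^ 2 ≤ (2 * δ) ^ 2 := by nlinarith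
      exact le_of_sq_le_sq h3 (by positivity)
    have h4 := conv_bound φ p x hp hp1 s u (fun z => z)
    rw [← hv] at h4
    have h5 : ‖(∑ x ∈ s, u x) • v‖ ≤ ‖∑ k ∈ s, u k • tr φ k v‖ + L * (2 * δ) := by
      have h6 : (∑ x ∈ s, u x) • v = ∑ k ∈ s, u k • tr φ k v - ∑ k ∈ s, u k • (tr φ k v - v) := by
        simp only [smul_sub, Finset.sum_sub_distrib, Finset.sum_smul]
        abel
      rw [h6]
      refine (norm_sub_le _ _).trans ?_
      gcongr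
      calc ‖∑ k ∈ s, u k • (tr φ k v - v)‖ ≤ ∑ k ∈ s, ‖u k • (tr φ k v - v)‖ := norm_sum_le _ _
        _ ≤ ∑ k ∈ s, |u k| * (2 * δ) := by
            refine Finset.sum_le_sum fun k _ => ?_
            rw [norm_smul, Real.norm_eq_abs]
            exact mul_le_mul_of_nonneg_left (htr k) (abs_nonneg _)
        _ = L * (2 * δ) := by rw [← Finset.sum_mul]
    rw [norm_smul, Real.norm_eq_abs] at h5
    have h7 : Real.sqrt c ≤ ‖v‖ := Real.sqrt_le_iff.mpr ⟨norm_nonneg _, hcle _ hvH⟩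
    have h8 : L * (2 * δ) ≤ ε := by
      rw [hδ]
      have : L * (2 * (ε / (2 * (L + 1)))) = ε * (L / (L + 1)) := by field_simp
      rw [this]
      have : L / (L + 1) ≤ 1 := by rw [div_le_one (by positivity)]; linarith
      nlinarith
    calc Real.sqrt c * |∑ x ∈ s, u x| ≤ ‖v‖ * |∑ x ∈ s, u x| := by gcongr
      _ = |∑ x ∈ s, u x| * ‖v‖ := mul_comm _ _
      _ ≤ _ := by linarith
  refine ⟨c, hc0, ⟨fun x => by rw [h.symm], fun s u => ?_⟩, fun ε hε => ?_⟩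
  · have h1 := hmain s u
    have h2 : ∑ x ∈ s, ∑ y ∈ s, u x * u y * (φ (x - y) - c)
        = ‖∑ x ∈ s, u x • e φ x‖ ^ 2 - c * (∑ x ∈ s, u x) ^ 2 := by
      rw [norm_sum_sq, sq, Finset.sum_mul_sum, Finset.mul_sum, ← Finset.sum_sub_distrib]
      refine Finset.sum_congr rfl fun x _ => ?_
      rw [Finset.mul_sum, ← Finset.sum_sub_distrib]
      refine Finset.sum_congr rfl fun y _ => ?_
      ring
    rw [h2]
    have h3 : (Real.sqrt c * |∑ x ∈ s, u x|) ^ 2 ≤ ‖∑ x ∈ s, u x • e φ x‖ ^ 2 :=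
      pow_le_pow_left₀ (by positivity) h1 2
    rw [mul_pow, Real.sq_sqrt hc0, sq_abs] at h3
    linarith
  · obtain ⟨ι, hι, p, x, hp, hp1, hlt⟩ := hrep ε hε
    refine ⟨ι, hι, p, x, hp, hp1, ?_⟩
    rw [norm_sum_sq] at hlt
    have h2 : ∑ i, ∑ j, p i * p j * (φ (x i - x j) - c)
        = ∑ i, ∑ j, p i * p j * φ (x i - x j) - c * ((∑ i, p i) * (∑ i, p i)) := by
      rw [Finset.sum_mul_sum, Finset.mul_sum, ← Finset.sum_sub_distrib]
      refine Finset.sum_congr rfl fun x _ => ?_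
      rw [Finset.mul_sum, ← Finset.sum_sub_distrib]
      refine Finset.sum_congr rfl fun y _ => ?_
      ring
    rw [h2, hp1]
    linarith

end Pool.Agent.H235R3.PT
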