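import Pool.Agent.H235R3.PT.Lift

set_option autoImplicit false

namespace Pool.Agent.H235R3.PT

open Finset Filter Topology Polynomial

theorem zero_of_families {G : Type*} [AddCommGroup G] {Ψ : G → ℝ} (hpd : PD Ψ) (v : ℝ)
    (H : ∀ N : ℕ, 0 < N → ∃ x : ℕ → G, (∀ i < N, Ψ (x i) = v) ∧
      ∀ i < N, ∀ j < N, i ≠ j → Ψ (x i - x j) = 0) : v = 0 := by
  have h0 := hpd.zero_nonneg
  have key : ∀ N : ℕ, 0 < N → v ^ 2 * N ≤ Ψ 0 ^ 2 := by
    intro N hN
    obtain ⟨x, hx, hxx⟩ := H N hN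
    have hN' : (0 : ℝ) < N := by exact_mod_cast hN
    have h1 := vdc hpd (range N) (fun _ => (1 : ℝ)) x
    have h2 : ∑ i ∈ range N, 1 * Ψ (x i) = N * v := by
      rw [Finset.sum_congr rfl (fun i hi => by rw [hx i (Finset.mem_range.mp hi), one_mul])]
      simp
    have h3 : ∑ i ∈ range N, ∑ j ∈ range N, (1 : ℝ) * 1 * Ψ (x i - x j) = N * Ψ 0 := by
      have : ∀ i ∈ range N, ∑ j ∈ range N, (1 : ℝ) * 1 * Ψ (x i - x j) = Ψ 0 := by
        intro i hi
        rw [Finset.sum_eq_single i]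
        · simp
        · intro j hj hji
          rw [hxx i (Finset.mem_range.mp hi) j (Finset.mem_range.mp hj) (Ne.symm hji)]
          simp
        · intro h; exact absurd hi h
      rw [Finset.sum_congr rfl this]
      simp
    rw [h2, h3] at h1
    have h4 : N * (v ^ 2 * N) ≤ N * Ψ 0 ^ 2 := by nlinarith
    exact le_of_mul_le_mul_left h4 hN'
  by_contra hv
  have hv2 : 0 < v ^ 2 := by positivity
  obtain ⟨N, hN⟩ := exists_nat_gt (Ψ 0 ^ 2 / v ^ 2)
  rw [div_lt_iff₀ hv2] at hN
  rcases Nat.eq_zero_or_pos N with rfl | hNpos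
  · have : (0 : ℝ) ≤ Ψ 0 ^ 2 := by positivity
    simp at hN
    nlinarith
  · have := key N hNpos
    nlinarith

theorem taylor_coeff_top (d : ℕ) (q : ℂ[X]) (hq : q.natDegree ≤ d + 1) (a : ℂ) :
    (taylor a q).coeff (d + 1) = q.coeff (d + 1) := by
  rw [taylor_coeff]
  have h1 : (hasseDeriv (d + 1) q).natDegree < 1 := by
    have := natDegree_hasseDeriv_le q (d + 1)
    omega
  rw [eval_eq_sum_range' h1]
  simp [hasseDeriv_coeff]

theorem taylor_coeff_next (d : ℕ) (q : ℂ[X]) (hq : q.natDegree ≤ d + 1) (a : ℂ) :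
    (taylor a q).coeff d = q.coeff d + (d + 1) * q.coeff (d + 1) * a := by
  rw [taylor_coeff]
  have h1 : (hasseDeriv d q).natDegree < 2 := by
    have := natDegree_hasseDeriv_le q d
    omega
  rw [eval_eq_sum_range' h1]
  simp [Finset.sum_range_succ, hasseDeriv_coeff, add_comm 1 d]

theorem taylor_sub (d : ℕ) (q : ℂ[X]) (hq : q.natDegree ≤ d + 1) (a b : ℂ) :
    (taylor a q - taylor b q).natDegree ≤ d ∧
    (taylor a q - taylor b q).coeff d = (d + 1) * (a - b) * q.coeff (d + 1) := by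
  constructor
  · rw [natDegree_le_iff_coeff_eq_zero]
    intro N hN
    rw [coeff_sub]
    rcases Nat.lt_or_ge (d + 1) N with h | h
    · rw [coeff_eq_zero_of_natDegree_lt, coeff_eq_zero_of_natDegree_lt, sub_zero]
      · rw [natDegree_taylor]; omega
      · rw [natDegree_taylor]; omega
    · have : N = d + 1 := by omega
      subst this
      rw [taylor_coeff_top d q hq, taylor_coeff_top d q hq, sub_self]
  · rw [coeff_sub, taylor_coeff_next d q hq, taylor_coeff_next d q hq]
    ring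

/-- Families given by polynomials whose top coefficient is a fixed number times powers of two. -/
theorem polyNull {φ : ℂ → ℝ} {Ψ : Fam → ℝ} (hG : Good φ Ψ) (hL : LineZero φ) :
    ∀ (m : ℕ) (q : ℕ → ℂ[X]) (c : ℂ) (k : ℕ → ℤ), c ≠ 0 → (∀ n, (q n).natDegree ≤ m + 1) →
      (∀ n, (q n).coeff (m + 1) = c * 2 ^ (k n)) → Ψ (fun n t => (q n).eval (t : ℂ)) = 0 := by
  intro m
  induction m with
  | zero =>
    intro q c k hc hdeg hco
    set x : Fam := fun n t => (q n).eval (t : ℂ) with hx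
    have h0 := hG.pd.zero_nonneg
    have hcn : 0 < ‖c‖ := norm_pos_iff.mpr hc
    have key : ∀ ε > 0, Ψ x ^ 2 ≤ ε := by
      intro ε hε
      obtain ⟨ι, hι, p, r, hp, hp1, hlt⟩ := hL (ε / (Ψ 0 + 1)) (by positivity)
      have h1 := vdc hG.pd (Finset.univ : Finset ι) p
        (fun i => (fun n t => x n (t + r i / ‖c‖) : Fam))
      have h2 : ∑ i, p i * Ψ (fun n t => x n (t + r i / ‖c‖)) = Ψ x := by
        rw [Finset.sum_congr rfl (fun i _ => by rw [hG.shift (r i / ‖c‖) x])]
        rw [← Finset.sum_mul, hp1, one_mul]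
      have h3 : ∀ i j, Ψ ((fun n t => x n (t + r i / ‖c‖) : Fam) - (fun n t => x n (t + r j / ‖c‖)))
          = φ ((r i - r j : ℝ) : ℂ) := by
        intro i j
        rw [← hG.const]
        refine hG.rel _ _ fun t => Eventually.of_forall fun n => ⟨k n, ?_⟩
        have h4 : ∀ s : ℂ, (q n).eval s = (q n).coeff 0 + (c * 2 ^ (k n)) * s := by
          intro s
          rw [eval_eq_sum_range' (show (q n).natDegree < 2 by have := hdeg n; omega)]
          have := hco n
          rw [zero_add] at this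
          rw [Finset.sum_range_succ, Finset.sum_range_one, this]
          simp
        simp only [Pi.sub_apply, hx, h4]
        have h5 : (q n).coeff 0 + c * 2 ^ k n * ((t + r i / ‖c‖ : ℝ) : ℂ) -
            ((q n).coeff 0 + c * 2 ^ k n * ((t + r j / ‖c‖ : ℝ) : ℂ))
            = (c / (‖c‖ : ℝ)) * (2 ^ k n * ((r i - r j : ℝ) : ℂ)) := by
          push_cast
          have : ((‖c‖ : ℝ) : ℂ) ≠ 0 := by exact_mod_cast hcn.ne'
          field_simp
          ring
        rw [h5, norm_mul, norm_div, Complex.norm_real, norm_norm, div_self hcn.ne', one_mul,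
          norm_mul, norm_zpow, Complex.norm_ofNat]
      rw [h2] at h1
      simp only [h3] at h1
      calc Ψ x ^ 2 ≤ _ := h1
        _ ≤ (ε / (Ψ 0 + 1)) * Ψ 0 := mul_le_mul_of_nonneg_right hlt.le h0
        _ ≤ ε := by
            have : ε / (Ψ 0 + 1) * Ψ 0 = ε * (Ψ 0 / (Ψ 0 + 1)) := by field_simp
            rw [this]
            have : Ψ 0 / (Ψ 0 + 1) ≤ 1 := by rw [div_le_one (by positivity)]; linarith
            nlinarith
    by_contra hne
    have hpos : 0 < Ψ x ^ 2 := by positivity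
    have := key (Ψ x ^ 2 / 2) (by positivity)
    linarith
  | succ m ih =>
    intro q c k hc hdeg hco
    refine zero_of_families hG.pd _ fun N _ => ?_
    refine ⟨fun i => fun n t => (q n).eval (((t + (i : ℝ) : ℝ)) : ℂ), fun i _ => ?_,
      fun i _ j _ hij => ?_⟩
    · exact hG.shift (i : ℝ) (fun n t => (q n).eval (t : ℂ))
    · have h1 : ((fun n t => (q n).eval (((t + (i : ℝ) : ℝ)) : ℂ) : Fam) -
          (fun n t => (q n).eval (((t + (j : ℝ) : ℝ)) : ℂ)))
          = fun n (t : ℝ) => (taylor (i : ℂ) (q n) - taylor (j : ℂ) (q n)).eval (t : ℂ) := by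
        funext n t
        simp only [Pi.sub_apply, eval_sub, taylor_eval]
        push_cast
        rfl
      rw [h1]
      refine ih (fun n => taylor (i : ℂ) (q n) - taylor (j : ℂ) (q n))
        ((m + 1 + 1) * (i - j) * c) k ?_ ?_ ?_
      · have h2 : (i : ℂ) - j ≠ 0 := sub_ne_zero.mpr (by exact_mod_cast hij)
        have h3 : (m + 1 + 1 : ℂ) ≠ 0 := by exact_mod_cast Nat.succ_ne_zero (m + 1)
        exact mul_ne_zero (mul_ne_zero h3 h2) hc
      · intro n
        exact (taylor_sub (m + 1) (q n) (hdeg n) _ _).1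
      · intro n
        rw [(taylor_sub (m + 1) (q n) (hdeg n) _ _).2, hco n]
        push_cast
        ring

/-- Scaled polynomial families. -/
theorem scaledNull {φ : ℂ → ℝ} {Ψ : Fam → ℝ} (hG : Good φ Ψ) (hL : LineZero φ) (P : ℂ[X])
    (hP : 1 ≤ P.natDegree) :
    Ψ (fun n t => 2 ^ n * P.eval ((t : ℂ) / 2 ^ n)) = 0 := by
  obtain ⟨m, hm⟩ : ∃ m, P.natDegree = m + 1 := ⟨P.natDegree - 1, by omega⟩
  have h1 := polyNull hG hL m (fun n => C (2 ^ n) * P.comp (C ((2 ^ n : ℂ)⁻¹) * X))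
    (P.coeff (m + 1)) (fun n => (n : ℤ) - n * (m + 1)) ?_ ?_ ?_
  · rw [← h1]
    congr 1
    funext n t
    simp only [eval_mul, eval_C, eval_comp, eval_X]
    rw [div_eq_mul_inv, mul_comm (t : ℂ)]
  · rw [← hm]
    intro h0
    rw [coeff_natDegree, leadingCoeff_eq_zero] at h0
    rw [h0] at hm
    simp at hm
  · intro n
    refine (natDegree_C_mul_le _ _).trans ?_
    refine (natDegree_comp_le).trans ?_
    have : (C ((2 ^ n : ℂ)⁻¹) * X : ℂ[X]).natDegree ≤ 1 :=
      (natDegree_C_mul_le _ _).trans natDegree_X_le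
    calc P.natDegree * (C ((2 ^ n : ℂ)⁻¹) * X : ℂ[X]).natDegree ≤ P.natDegree * 1 := by gcongr
      _ = m + 1 := by rw [hm, mul_one]
  · intro n
    rw [coeff_C_mul, comp_C_mul_X_coeff]
    rw [zpow_sub₀ (by norm_num), zpow_natCast]
    have h2 : (2 : ℂ) ^ ((n : ℤ) * (m + 1)) = (2 ^ n) ^ (m + 1) := by
      rw [zpow_mul, zpow_natCast]
      norm_cast
    rw [h2, inv_pow]
    field_simp

end Pool.Agent.H235R3.PT
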